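import Pool.Agent.Lib.TWLG76.GoodP

/-!
# CT, j = 1: cocycles which are not coboundaries

* `Cob δ`: `δ s t = R (s + t) - R s - R t`;
* `two_le`: if `δ` is not a coboundary, then in every system of coordinates the weight of the second
  variable is at least `2 |x|`;
-/

set_option autoImplicit false

namespace Pool.Agent.TWLG0

open Polynomial
open Pool.Agent.H15JM (RVal)
open Pool.Agent.D2 (Ctx0)
open Pool.Agent.TWM
open Pool.Agent.TWLG76 (Sh Sh_coeff v_aeval)

universe u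

variable {k Ω : Type u} [Field k] [Field Ω] [Algebra k Ω] {v : RVal Ω}

/-- `δ` is a coboundary. -/
def Cob (δ : k → k → k) : Prop := ∃ R : k[X], ∀ s t, δ s t = R.eval (s + t) - R.eval s - R.eval t

section alg

variable {ι : Type} [Fintype ι] {δ : k → k → k} {F G : ι → k[X]}

/-- the coefficient of `t ^ j` -/
noncomputable def bc (F G : ι → k[X]) (j : ℕ) : k[X] := ∑ i, C ((G i).coeff j) * F i

theorem eval_bc (F G : ι → k[X]) (s : k) (j : ℕ) :
    (bc F G j).eval s = (∑ i, C ((F i).eval s) * G i).coeff j := by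
  rw [bc, eval_finsetSum, finsetSum_coeff]
  refine Finset.sum_congr rfl fun i _ => ?_
  rw [eval_mul, eval_C, coeff_C_mul, mul_comm]

theorem exists_ne [Infinite k] (hFG : ∀ s t, δ s t = ∑ i, (F i).eval s * (G i).eval t)
    (hd' : ∀ s, δ s 0 = 0) (hc : ¬ Cob δ) (f : k[X]) :
    ∃ j : ℕ, 1 ≤ j ∧ bc F G j + (C (f.coeff j) - hasseDeriv j f) ≠ 0 := by
  by_contra hcon
  push Not at hcon
  apply hc
  refine ⟨f - C (f.coeff 0), fun s t => ?_⟩
  have h1 : (∑ i, C ((F i).eval s) * G i : k[X]) =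
      taylor s f - C (f.eval s) - f + C (f.coeff 0) := by
    ext j
    rw [← eval_bc]
    rcases Nat.eq_zero_or_pos j with rfl | hj
    · have h2 : (bc F G 0).eval s = 0 := by
        rw [eval_bc, coeff_zero_eq_eval_zero, eval_finsetSum]
        calc (∑ i, eval 0 (C (eval s (F i)) * G i)) = ∑ i, (F i).eval s * (G i).eval 0 :=
              Finset.sum_congr rfl fun i _ => by rw [eval_mul, eval_C]
          _ = 0 := by rw [← hFG, hd']
      rw [h2, coeff_add, coeff_sub, coeff_sub, taylor_coeff_zero, coeff_C_zero, coeff_C_zero]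
      ring
    · have h3 := hcon j hj
      have h4 : bc F G j = hasseDeriv j f - C (f.coeff j) := by
        rw [← sub_eq_zero, ← h3]
        ring
      rw [h4, eval_sub, eval_C, coeff_add, coeff_sub, coeff_sub, taylor_coeff,
        coeff_C_of_ne_zero hj.ne', coeff_C_of_ne_zero hj.ne']
      ring
  have h5 := congrArg (fun P : k[X] => P.eval t) h1
  simp only [eval_finsetSum, eval_mul, eval_C, eval_add, eval_sub, taylor_eval] at h5
  rw [hFG, h5, eval_sub, eval_sub, eval_sub, eval_C, eval_C, eval_C, add_comm t s]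
  ring

theorem bc_eval_zero [Infinite k] (hFG : ∀ s t, δ s t = ∑ i, (F i).eval s * (G i).eval t)
    (hd : ∀ t, δ 0 t = 0) (j : ℕ) : (bc F G j).eval 0 = 0 := by
  rw [eval_bc]
  have h1 : (∑ i, C ((F i).eval 0) * G i : k[X]) = 0 := by
    refine Polynomial.funext fun t => ?_
    rw [eval_finsetSum, eval_zero]
    calc (∑ i, eval t (C (eval 0 (F i)) * G i)) = ∑ i, (F i).eval 0 * (G i).eval t :=
          Finset.sum_congr rfl fun i _ => by rw [eval_mul, eval_C]
      _ = 0 := by rw [← hFG, hd]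
  rw [h1, coeff_zero]

end alg

/-- the second coordinate of the position -/
noncomputable def Psi {ι : Type} [Fintype ι] (x y : Ω) (F G : ι → k[X]) : Polynomial Ω :=
  C y + ∑ i, C (aeval x (F i)) * (G i).map (algebraMap k Ω)

theorem Psi_coeff {ι : Type} [Fintype ι] (x y : Ω) (F G : ι → k[X]) {j : ℕ} (hj : 1 ≤ j) :
    (Psi x y F G).coeff j = aeval x (bc F G j) := by
  rw [Psi, coeff_add, coeff_C_of_ne_zero (by omega), zero_add, finsetSum_coeff, bc, map_sum]
  refine Finset.sum_congr rfl fun i _ => ?_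
  rw [coeff_C_mul, coeff_map, map_mul, aeval_C, mul_comm]

/-- the coefficients after the shift `c ↦ c - f (s)` -/
noncomputable def bs {ι : Type} [Fintype ι] (F G : ι → k[X]) (f : k[X]) (j : ℕ) : k[X] :=
  bc F G j + (C (f.coeff j) - hasseDeriv j f)

theorem bs_zero {ι : Type} [Fintype ι] (F G : ι → k[X]) (j : ℕ) : bs F G 0 j = bc F G j := by
  rw [bs, coeff_zero, C_0, map_zero, sub_zero, add_zero]

theorem bs_add {ι : Type} [Fintype ι] (F G : ι → k[X]) (f g : k[X]) (j : ℕ) :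
    bs F G (f + g) j = bs F G f j + (C (g.coeff j) - hasseDeriv j g) := by
  rw [bs, bs, coeff_add, C_add, map_add]
  ring

/-- There is no constant term. -/
theorem bs_coeff_zero [Infinite k] {ι : Type} [Fintype ι] {δ : k → k → k}
    {F G : ι → k[X]} (hFG : ∀ s t, δ s t = ∑ i, (F i).eval s * (G i).eval t)
    (hd : ∀ t, δ 0 t = 0) (f : k[X]) (j : ℕ) : (bs F G f j).coeff 0 = 0 := by
  rw [coeff_zero_eq_eval_zero, bs, eval_add, bc_eval_zero hFG hd, eval_sub, eval_C, zero_add,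
    ← coeff_zero_eq_eval_zero, hasseDeriv_coeff, zero_add, Nat.choose_self, Nat.cast_one, one_mul,
    sub_self]

/-- **The weight of the second variable is at least `2 |x|`.** `Ψ` is the second coordinate of the
position in some system of coordinates, up to terms which are small for the weights. -/
theorem two_le [Infinite k] (hk : Ctx0 k v) {ι : Type} [Fintype ι] {δ : k → k → k}
    {F G : ι → k[X]} (hFG : ∀ s t, δ s t = ∑ i, (F i).eval s * (G i).eval t)
    (hd : ∀ t, δ 0 t = 0) (hd' : ∀ s, δ s 0 = 0) (hc : ¬ Cob δ) {w₀ : ℝ} (hw0 : 0 < w₀) {x : Ω}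
    (hx : x ≠ 0) (hv : v x = -w₀) {Ψ : Polynomial Ω} {μ : k[X]}
    (hΨ : ∀ j : ℕ, 1 ≤ j → Gt v (-(w₀ - j * w₀)) (Ψ.coeff j - aeval x (bs F G μ j))) (f : k[X]) :
    ∃ j : ℕ, 1 ≤ j ∧ (Sh x f Ψ).coeff j ≠ 0 ∧ v ((Sh x f Ψ).coeff j) ≤ -(2 * w₀ - j * w₀) := by
  obtain ⟨j, hj, hne⟩ := exists_ne hFG hd' hc (μ + f)
  set g := bc F G j + (C ((μ + f).coeff j) - hasseDeriv j (μ + f)) with hg
  have hgb : g = bs F G μ j + (C (f.coeff j) - hasseDeriv j f) := bs_add F G μ f j
  have h1 : (Sh x f Ψ).coeff j = aeval x g + (Ψ.coeff j - aeval x (bs F G μ j)) := by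
    rw [Sh_coeff, hgb, map_add]
    ring
  have h2 : g.coeff 0 = 0 := bs_coeff_zero hFG hd (μ + f) j
  have h3 : 1 ≤ g.natDegree := by
    by_contra h4
    have h5 : g.natDegree = 0 := by omega
    apply hne
    rw [Polynomial.eq_C_of_natDegree_eq_zero h5, h2, C_0]
  obtain ⟨h4, h5⟩ := v_aeval hk hw0 hx hv hne
  have h6 : (1 : ℝ) ≤ g.natDegree := by exact_mod_cast h3
  have h7 : (1 : ℝ) ≤ j := by exact_mod_cast hj
  have h8 : Gt v (v (aeval x g)) (aeval x g - (Sh x f Ψ).coeff j) := by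
    rw [h1, sub_add_cancel_left, h5]
    refine (Gt.neg (hΨ j hj)).mono ?_
    nlinarith
  obtain ⟨h9, h10⟩ := Gt.val_eq h4 h8
  refine ⟨j, hj, h9, ?_⟩
  rw [h10, h5]
  nlinarith

/-- **No light system of coordinates.** -/
theorem two_le' [Infinite k] (hk : Ctx0 k v) {ι : Type} [Fintype ι] {δ : k → k → k}
    {F G : ι → k[X]} (hFG : ∀ s t, δ s t = ∑ i, (F i).eval s * (G i).eval t)
    (hd : ∀ t, δ 0 t = 0) (hd' : ∀ s, δ s 0 = 0) (hc : ¬ Cob δ) {w₀ : ℝ} (hw0 : 0 < w₀) {x : Ω}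
    (hx : x ≠ 0) (hv : v x = -w₀) {Ψ : Polynomial Ω} {μ : k[X]}
    (hΨ : ∀ j : ℕ, 1 ≤ j → Gt v (-(w₀ - j * w₀)) (Ψ.coeff j - aeval x (bs F G μ j))) {f : k[X]}
    {w₁ : ℝ} (h : ∀ j : ℕ, v.Ge (-(w₁ - j * w₀)) ((Sh x f Ψ).coeff j)) : 2 * w₀ ≤ w₁ := by
  obtain ⟨j, _, h1, h2⟩ := two_le hk hFG hd hd' hc hw0 hx hv hΨ f
  have h3 := h j h1
  linarith

end Pool.Agent.TWLG0
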