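import Pool.Agent.Lib.TWLG0.Ncob

/-!
# CT, j = 1: the cocycle of a floor with attained jets which is not integrable, II

`exists_coc`.
-/

set_option autoImplicit false

namespace Pool.Agent.TWLG0

open Polynomial
open Pool.Agent.H15JM (RVal)
open Pool.Agent.LU1 (VPos)
open Pool.Agent.D2 (Ctx0)
open Pool.Agent.TWM
open Pool.Agent.TWRZ
open Pool.Agent.TWS (IsoE)
open Pool.Agent.TWCT (eq_on_cadj)

universe u

variable {k Ω : Type u} [Field k] [Field Ω] [Algebra k Ω] {v : RVal Ω}

/-- The residue of a polynomial with integral coefficients. -/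
theorem exists_res_poly (hk : Ctx0 k v) (P : Polynomial Ω) (hP : ∀ i, v.Ge 0 (P.coeff i)) :
    ∃ b : k[X], b.natDegree ≤ P.natDegree ∧ ∃ m : ℝ, 0 < m ∧
      ∀ i, v.Ge m ((P - b.map (algebraMap k Ω)).coeff i) := by
  classical
  choose r hr using fun i => hk.residue (hP i)
  set b : k[X] := ∑ i ∈ Finset.range (P.natDegree + 1), monomial i (r i) with hb
  have hbc : ∀ i, b.coeff i = if i ≤ P.natDegree then r i else 0 := by
    intro i
    rw [hb, finsetSum_coeff]
    simp_rw [coeff_monomial]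
    rw [Finset.sum_ite_eq']
    by_cases h : i ≤ P.natDegree
    · rw [if_pos (Finset.mem_range.2 (by omega)), if_pos h]
    · rw [if_neg (fun h' => h (by have := Finset.mem_range.1 h'; omega)), if_neg h]
  have hbd : b.natDegree ≤ P.natDegree := by
    rw [natDegree_le_iff_coeff_eq_zero]
    intro i hi
    rw [hbc, if_neg (by omega)]
  obtain ⟨m, hm, h1⟩ := exists_margin (v := v) (Finset.range (P.natDegree + 1))
    (fun i => (P - b.map (algebraMap k Ω)).coeff i) (fun i hi => by
      rw [coeff_sub, coeff_map, hbc, if_pos (by have := Finset.mem_range.1 hi; omega)]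
      exact hr i)
  refine ⟨b, hbd, m, hm, fun i => ?_⟩
  by_cases hi : i ≤ P.natDegree
  · exact h1 i (Finset.mem_range.2 (by omega))
  · rw [coeff_sub, coeff_map, hbc, if_neg hi, map_zero, sub_zero,
      coeff_eq_zero_of_natDegree_lt (by omega)]
    exact RVal.Ge.zero

section main

variable {W : IntermediateField k Ω} {w u : Ω} {S : k → Ω →ₐ[k] Ω} {U : Polynomial Ω}

/-- The residues of the defect: approximations `f j` of the coefficients of `U`, residues `b j`. -/
structure Rsd (k : Type u) {Ω : Type u} [Field k] [Field Ω] [Algebra k Ω] (v : RVal Ω)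
    (W : IntermediateField k Ω) (w : Ω) (U : Polynomial Ω) (f : ℕ → Polynomial Ω) (b : ℕ → k[X])
    (m : ℝ) : Prop where
  fW : ∀ j, f j ∈ PI W
  near : ∀ j, v.Ge 1 (U.coeff j - (f j).eval w)
  pos : 0 < m
  le : m ≤ 1
  res : ∀ j, 1 ≤ j → j ≤ U.natDegree → ∀ i,
    v.Ge m ((taylor w (f j) - hasseDeriv j U - (b j).map (algebraMap k Ω)).coeff i)

theorem exists_rsd [IsAlgClosed Ω] [Infinite k] (hk : Ctx0 k v) (hw : TL v W w 0)
    (hu : Lim v (cadj v W w) 0 u) (hiso : ∀ s, IsoE v v (S s))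
    (hSW : ∀ s, ∀ f ∈ W, S s f = f) (hSw : ∀ s, S s w = w + algebraMap k Ω s)
    (hSu : ∀ s, S s u = u + U.eval (algebraMap k Ω s)) (hUC : ∀ j, U.coeff j ∈ cadj v W w) :
    ∃ f b m, Rsd k v W w U f b m := by
  classical
  choose f hf1 hf2 using fun j => hw.dense (hUC j) 1
  have h1 : ∀ j : ℕ, 1 ≤ j → ∀ i, v.Ge 0 ((taylor w (f j) - hasseDeriv j U).coeff i) := by
    intro j hj
    refine fun i => coeff_ge hk (fun s => ?_) i
    have e : (taylor w (f j) - hasseDeriv j U).eval (algebraMap k Ω s) =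
        (S s (U.coeff j) - (hasseDeriv j U).eval (algebraMap k Ω s)) -
          S s (U.coeff j - (f j).eval w) := by
      rw [eval_sub, taylor_eval, map_sub, map_eval (hSW s) (hSw s) (hf1 j), add_comm w]
      ring
    rw [e]
    exact (lam_ge hk hu hiso hSW hSw hSu s hj).sub
      (((hiso s).ge_iff.2 (hf2 j)).mono zero_le_one)
  have h2 : ∀ j : ℕ, ∃ b : k[X], ∃ m : ℝ, 0 < m ∧ (1 ≤ j → ∀ i,
      v.Ge m ((taylor w (f j) - hasseDeriv j U - b.map (algebraMap k Ω)).coeff i)) := by
    intro j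
    by_cases hj : 1 ≤ j
    · obtain ⟨b, -, m, hm, h⟩ := exists_res_poly hk _ (h1 j hj)
      exact ⟨b, m, hm, fun _ => h⟩
    · exact ⟨0, 1, one_pos, fun h => absurd h hj⟩
  choose b m hm h3 using h2
  obtain ⟨m₀, hm₀, h4⟩ : ∃ m₀ : ℝ, 0 < m₀ ∧ ∀ j ∈ Finset.range (U.natDegree + 1), m₀ ≤ m j := by
    obtain ⟨j₀, -, h5⟩ := (Finset.range (U.natDegree + 1)).exists_min_image m ⟨0, by simp⟩
    exact ⟨m j₀, hm j₀, h5⟩
  refine ⟨f, b, min m₀ 1, hf1, hf2, lt_min hm₀ one_pos, min_le_right _ _, fun j hj hjn i => ?_⟩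
  exact (h3 j hj i).mono ((min_le_left _ _).trans (h4 j (Finset.mem_range.2 (by omega))))

/-- the first factors of the cocycle -/
noncomputable def cF (U : Polynomial Ω) (b : ℕ → k[X]) (i : Fin U.natDegree) : k[X] := b (i + 1)

/-- the second factors of the cocycle -/
noncomputable def cG (k : Type u) [Field k] (U : Polynomial Ω) (i : Fin U.natDegree) : k[X] :=
  X ^ ((i : ℕ) + 1)

omit [Algebra k Ω] in
theorem bc_cF (U : Polynomial Ω) (b : ℕ → k[X]) (j : ℕ) : bc (cF U b) (cG k U) j =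
    if 1 ≤ j ∧ j ≤ U.natDegree then b j else 0 := by
  classical
  rw [bc]
  simp only [cF, cG, coeff_X_pow]
  split_ifs with h
  · rw [Finset.sum_eq_single (⟨j - 1, by omega⟩ : Fin U.natDegree)]
    · have e : j - 1 + 1 = j := by omega
      simp only [e, if_true, C_1, one_mul]
    · intro i _ hi
      rw [if_neg, C_0, zero_mul]
      intro h1
      exact hi (Fin.ext (by simp only; omega))
    · intro h1
      exact absurd (Finset.mem_univ _) h1
  · refine Finset.sum_eq_zero fun i _ => ?_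
    rw [if_neg, C_0, zero_mul]
    intro h1
    exact h ⟨by omega, by have := i.2; omega⟩

/-- the cocycle -/
noncomputable def cδ (U : Polynomial Ω) (b : ℕ → k[X]) (s t : k) : k :=
  ∑ i, (cF U b i).eval s * (cG k U i).eval t

omit [Algebra k Ω] in
theorem cδ_zero (U : Polynomial Ω) (b : ℕ → k[X]) (s : k) : cδ U b s 0 = 0 :=
  Finset.sum_eq_zero fun i _ => by
    rw [cG, eval_pow, eval_X, zero_pow (by omega), mul_zero]

variable {f : ℕ → Polynomial Ω} {b : ℕ → k[X]} {m : ℝ}

/-- The defect of the law is the cocycle up to a positive margin. -/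
theorem Rsd.hco (hk : Ctx0 k v) (h : Rsd k v W w U f b m) (hiso : ∀ s, IsoE v v (S s))
    (hSW : ∀ s, ∀ f ∈ W, S s f = f) (hSw : ∀ s, S s w = w + algebraMap k Ω s)
    (hU0 : U.coeff 0 = 0) (s t : k) :
    v.Ge m (U.eval (algebraMap k Ω s) + S s (U.eval (algebraMap k Ω t)) -
      U.eval (algebraMap k Ω (s + t)) - algebraMap k Ω (cδ U b s t)) := by
  classical
  set P : Polynomial Ω := C (U.eval (algebraMap k Ω s)) + U.map (S s : Ω →+* Ω) -
    taylor (algebraMap k Ω s) U -
      ∑ i, C (algebraMap k Ω ((cF U b i).eval s)) * (cG k U i).map (algebraMap k Ω) with hP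
  have hPe : P.eval (algebraMap k Ω t) = U.eval (algebraMap k Ω s) +
      S s (U.eval (algebraMap k Ω t)) - U.eval (algebraMap k Ω (s + t)) -
        algebraMap k Ω (cδ U b s t) := by
    have e : (U.map (S s : Ω →+* Ω)).eval (algebraMap k Ω t) = S s (U.eval (algebraMap k Ω t)) := by
      have e1 : algebraMap k Ω t = (S s : Ω →+* Ω) (algebraMap k Ω t) :=
        (AlgHom.commutes (S s) t).symm
      rw [eval_map]
      conv_lhs => rw [e1]
      exact eval₂_at_apply (S s : Ω →+* Ω) _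
    rw [hP, eval_sub, eval_sub, eval_add, eval_C, e, taylor_eval, ← map_add, add_comm t s,
      eval_finsetSum, cδ, map_sum]
    congr 1
    refine Finset.sum_congr rfl fun i _ => ?_
    rw [eval_mul, eval_C, eval_map, eval₂_at_apply, map_mul]
  have hsum : ∀ j, (∑ i, C (algebraMap k Ω ((cF U b i).eval s)) *
      (cG k U i).map (algebraMap k Ω)).coeff j =
        algebraMap k Ω ((bc (cF U b) (cG k U) j).eval s) := by
    intro j
    rw [finsetSum_coeff, bc, eval_finsetSum, map_sum]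
    refine Finset.sum_congr rfl fun i _ => ?_
    rw [coeff_C_mul, coeff_map, eval_mul, eval_C, map_mul, mul_comm]
  have hPc : ∀ j, v.Ge m (P.coeff j) := by
    intro j
    rw [hP, coeff_sub, coeff_sub, coeff_add, coeff_map, taylor_coeff, hsum, bc_cF]
    rcases Nat.eq_zero_or_pos j with rfl | hj
    · rw [if_neg (by omega), eval_zero, map_zero, sub_zero, coeff_C_zero, hU0, hasseDeriv_zero',
        map_zero, add_zero, sub_self]
      exact RVal.Ge.zero
    · rw [coeff_C_of_ne_zero hj.ne', zero_add]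
      by_cases hjn : j ≤ U.natDegree
      · rw [if_pos ⟨hj, hjn⟩]
        have e : (S s : Ω →+* Ω) (U.coeff j) - (hasseDeriv j U).eval (algebraMap k Ω s) -
            algebraMap k Ω ((b j).eval s) = S s (U.coeff j - (f j).eval w) +
              (taylor w (f j) - hasseDeriv j U - (b j).map (algebraMap k Ω)).eval
                (algebraMap k Ω s) := by
          rw [map_sub, map_eval (hSW s) (hSw s) (h.fW j), eval_sub, eval_sub, taylor_eval, eval_map,
            eval₂_at_apply, add_comm w]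
          change S s (U.coeff j) - _ - _ = _
          ring
        rw [e]
        have h1 := eval_ge le_rfl (h.res j hj hjn) (y := algebraMap k Ω s) le_rfl
          (by rw [neg_zero]; exact hk.ge s)
        rw [mul_zero, sub_zero] at h1
        exact (((hiso s).ge_iff.2 (h.near j)).mono h.le).add h1
      · rw [if_neg (fun h' => hjn h'.2), eval_zero, map_zero, sub_zero,
          coeff_eq_zero_of_natDegree_lt (by omega), map_zero, hasseDeriv_eq_zero_of_lt_natDegree U j
            (by omega), eval_zero, sub_zero]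
        exact RVal.Ge.zero
  rw [← hPe]
  have h1 := eval_ge le_rfl hPc (y := algebraMap k Ω t) le_rfl (by rw [neg_zero]; exact hk.ge t)
  rwa [mul_zero, sub_zero] at h1

/-- **The displacement of a motion.** -/
theorem Rsd.dec (h : Rsd k v W w U f b m) : ∃ ε₀ : ℝ, 0 < ε₀ ∧ ∀ ω : ℝ, 0 ≤ ω →
    ω ≤ ε₀ → ∀ (τ : Ω →ₐ[k] Ω) (x : Ω), IsoE v v τ → (∀ f ∈ W, τ f = f) → τ w = w + x →
      v.Ge (-ω) x → ∀ j : ℕ, 1 ≤ j → Gt v (-(ω - j * ω))
        ((U.map (τ : Ω →+* Ω) - U.comp (X + C x)).coeff j -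
          aeval x (bc (cF U b) (cG k U) j)) := by
  classical
  set n := U.natDegree with hn
  obtain ⟨D, hD⟩ : ∃ D : ℕ, ∀ j ∈ Finset.range (n + 1),
      (taylor w (f j) - hasseDeriv j U - (b j).map (algebraMap k Ω)).natDegree ≤ D :=
    ⟨(Finset.range (n + 1)).sup fun j =>
      (taylor w (f j) - hasseDeriv j U - (b j).map (algebraMap k Ω)).natDegree, fun j hj =>
        Finset.le_sup (f := fun j =>
          (taylor w (f j) - hasseDeriv j U - (b j).map (algebraMap k Ω)).natDegree) hj⟩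
  refine ⟨m / (2 * (D + n + 1)), div_pos h.pos (by positivity), fun ω hω hωε τ x hτ hτW hτw hx j hj =>
    ?_⟩
  have hDn : ((D : ℝ) + n + 1) * ω ≤ m / 2 := by
    have h1 : (0 : ℝ) < D + n + 1 := by positivity
    calc ((D : ℝ) + n + 1) * ω ≤ (D + n + 1) * (m / (2 * (D + n + 1))) :=
          mul_le_mul_of_nonneg_left hωε h1.le
      _ = m / 2 := by field_simp
  have hcomp : (U.comp (X + C x)).coeff j = (hasseDeriv j U).eval x := by
    rw [← taylor_coeff]
    rfl
  rw [coeff_sub, coeff_map, hcomp, bc_cF]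
  by_cases hjn : j ≤ n
  · rw [if_pos ⟨hj, hjn⟩]
    have e : (τ : Ω →+* Ω) (U.coeff j) - (hasseDeriv j U).eval x - aeval x (b j) =
        τ (U.coeff j - (f j).eval w) +
          (taylor w (f j) - hasseDeriv j U - (b j).map (algebraMap k Ω)).eval x := by
      rw [map_sub, map_eval hτW hτw (h.fW j), eval_sub, eval_sub, taylor_eval, eval_map_algebraMap,
        add_comm w]
      change τ (U.coeff j) - _ - _ = _
      ring
    rw [e]
    have h1 := eval_ge (hD j (Finset.mem_range.2 (by omega))) (h.res j hj hjn) hω hx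
    have h2 : v.Ge (m - D * ω) (τ (U.coeff j - (f j).eval w)) :=
      (hτ.ge_iff.2 (h.near j)).mono (by
        have := h.le
        have : 0 ≤ (D : ℝ) * ω := by positivity
        linarith)
    refine Gt.of_ge (h2.add h1) ?_
    have h3 : (j : ℝ) ≤ n := by exact_mod_cast hjn
    have h4 : (j : ℝ) * ω ≤ n * ω := mul_le_mul_of_nonneg_right h3 hω
    have := h.pos
    nlinarith
  · rw [if_neg (fun h' => hjn h'.2), map_zero, sub_zero,
      coeff_eq_zero_of_natDegree_lt (by omega), map_zero,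
      hasseDeriv_eq_zero_of_lt_natDegree U j (by omega), eval_zero, sub_zero]
    exact Gt.zero

/-- **The cocycle is not a coboundary.** -/
theorem Rsd.not_cob [IsAlgClosed Ω] [Infinite k] (hk : Ctx0 k v) (h : Rsd k v W w U f b m) (hw : TL v W w 0)
    (hu : Lim v (cadj v W w) 0 u) (hiso : ∀ s, IsoE v v (S s))
    (hSW : ∀ s, ∀ f ∈ W, S s f = f) (hSw : ∀ s, S s w = w + algebraMap k Ω s)
    (hSu : ∀ s, S s u = u + U.eval (algebraMap k Ω s)) (hU0 : U.coeff 0 = 0)
    (hUC : ∀ j, U.coeff j ∈ cadj v W w) (hn : ∀ g ∈ cadj v W w, ¬ Lim v W 0 (u - g)) :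
    ¬ Cob (cδ U b) := by
  rintro ⟨R, hR⟩
  have hV : P0 (cadj v W w) (Pk k) (fun s => U.eval (algebraMap k Ω s)) :=
    ⟨Fin (U.natDegree + 1), inferInstance, fun i s => s ^ (i : ℕ), fun i => U.coeff i,
      fun i => ⟨X ^ (i : ℕ), fun t => by rw [eval_pow, eval_X]⟩, fun i => hUC i, fun s => by
        show U.eval (algebraMap k Ω s) = _
        rw [eval_eq_sum_range, Finset.sum_range]
        exact Finset.sum_congr rfl fun i _ => by rw [map_pow, mul_comm]⟩
  obtain ⟨ε₁, hε₁, hex⟩ := exists_exact (T := S) hk hV h.pos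
    (fun s t => h.hco hk hiso hSW hSw hU0 s t) (F := cF U b) (G := cG k U) fun s t => rfl
  obtain ⟨w₀, hw₀, hww₀⟩ := hw.lim ε₁ hε₁
  rw [zero_sub] at hww₀
  have hw₀C : w₀ ∈ cadj v W w := le_cadj v W w hw₀
  have hxC : w - w₀ ∈ cadj v W w := sub_mem (self_mem_cadj v W w) hw₀C
  have hSx : ∀ s, S s (w - w₀) = w - w₀ + algebraMap k Ω s := fun s => by
    rw [map_sub, hSw, hSW s w₀ hw₀]
    ring
  obtain ⟨A, hA, hAs⟩ := hex (w - w₀) hxC hww₀ hSx
  have hRC : ∀ y ∈ cadj v W w, aeval y R ∈ cadj v W w := by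
    intro y hy
    rw [aeval_eq_sum_range]
    refine sum_mem fun i _ => ?_
    rw [Algebra.smul_def]
    exact mul_mem (algebraMap_mem _ _) (pow_mem hy i)
  -- the two variable function
  have hLm : ∀ (s : k) (y : Ω), Lm Ω (cF U b) (cG k U) s y =
      aeval (algebraMap k Ω s + y) R - algebraMap k Ω (R.eval s) - aeval y R := by
    intro s y
    have h1 : (∑ i, C ((cF U b i).eval s) * cG k U i : k[X]) = taylor s R - C (R.eval s) - R := by
      refine Polynomial.funext fun t => ?_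
      rw [eval_finsetSum, eval_sub, eval_sub, taylor_eval, eval_C, add_comm t s, ← hR, cδ]
      exact Finset.sum_congr rfl fun i _ => by rw [eval_mul, eval_C]
    have h2 := congrArg (fun P : k[X] => aeval y P) h1
    simp only [map_sum, map_mul, aeval_C, map_sub] at h2
    have h3 : aeval y (taylor s R) = aeval (algebraMap k Ω s + y) R := by
      rw [taylor_apply, aeval_comp]
      congr 1
      rw [map_add, aeval_X, aeval_C, add_comm]
    rw [h3] at h2
    rw [← h2, Lm]
    exact Finset.sum_congr rfl fun i _ => by rw [eval_map_algebraMap]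
  refine hn (A - aeval (-(w - w₀)) R) (sub_mem hA (hRC _ (neg_mem hxC))) fun ε hε => ?_
  obtain ⟨θ, hθ, hθu, h1⟩ := near_jet hu hiso hSu (ε := ε / 2) (by linarith)
  set θ' := θ - (A - aeval (-(w - w₀)) R) with hθ'
  have hθ'C : θ' ∈ cadj v W w := sub_mem hθ (sub_mem hA (hRC _ (neg_mem hxC)))
  have h2 : ∀ s, v.Ge (-(ε / 2)) (S s θ' - θ') := by
    intro s
    have h3 : S s (aeval (-(w - w₀)) R) = aeval (-(w - w₀) - algebraMap k Ω s) R := by
      have e0 : -(w - w₀ + algebraMap k Ω s) = -(w - w₀) - algebraMap k Ω s := by ring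
      rw [← Polynomial.aeval_algHom_apply, map_neg, hSx, e0]
    have h4 := hAs s
    rw [hLm] at h4
    have e1 : algebraMap k Ω s + (-(w - w₀) - algebraMap k Ω s) = -(w - w₀) := by ring
    rw [e1] at h4
    have e : S s θ' - θ' = (S s θ - θ - U.eval (algebraMap k Ω s)) +
        (U.eval (algebraMap k Ω s) - (S s A - A) - (aeval (-(w - w₀)) R -
          algebraMap k Ω (R.eval s) - aeval (-(w - w₀) - algebraMap k Ω s) R)) -
            algebraMap k Ω (R.eval s) := by
      rw [hθ', map_sub, map_sub, h3]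
      ring
    rw [e]
    refine ((h1 s).add (h4.mono ?_)).sub ((hk.ge _).mono (by linarith))
    have := h.pos
    linarith
  obtain ⟨a, ha, h3⟩ := near_W hk hw hiso hSW hSw hθ'C (by linarith) h2
  refine ⟨a, ha, ?_⟩
  have e : u - (A - aeval (-(w - w₀)) R) - a = (u - θ) + (θ' - a) := by
    rw [hθ']
    ring
  rw [e]
  exact (hθu.mono (by linarith)).add (h3.mono (by linarith))

/-- **The cocycle.** -/
theorem exists_coc [IsAlgClosed Ω] [Infinite k] (hk : Ctx0 k v) (hw : TL v W w 0)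
    (hu : Lim v (cadj v W w) 0 u) (hiso : ∀ s, IsoE v v (S s))
    (hSW : ∀ s, ∀ f ∈ W, S s f = f) (hSw : ∀ s, S s w = w + algebraMap k Ω s)
    (hSu : ∀ s, S s u = u + U.eval (algebraMap k Ω s)) (hU0 : U.coeff 0 = 0)
    (hUC : ∀ j, U.coeff j ∈ cadj v W w) (hn : ∀ g ∈ cadj v W w, ¬ Lim v W 0 (u - g)) :
    ∃ (n : ℕ) (F G : Fin n → k[X]) (δ : k → k → k),
      (∀ s t, δ s t = ∑ i, (F i).eval s * (G i).eval t) ∧ (∀ t, δ 0 t = 0) ∧ (∀ s, δ s 0 = 0) ∧
      (∀ a b c : k, δ a b + δ (a + b) c = δ b c + δ a (b + c)) ∧ ¬ Cob δ ∧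
      ∃ ε₀ : ℝ, 0 < ε₀ ∧ ∀ ω : ℝ, 0 ≤ ω → ω ≤ ε₀ → ∀ (τ : Ω →ₐ[k] Ω) (x : Ω), IsoE v v τ →
        (∀ f ∈ W, τ f = f) → τ w = w + x → v.Ge (-ω) x → ∀ j : ℕ, 1 ≤ j →
          Gt v (-(ω - j * ω)) ((U.map (τ : Ω →+* Ω) - U.comp (X + C x)).coeff j -
            aeval x (bc F G j)) := by
  obtain ⟨f, b, m, h⟩ := exists_rsd hk hw hu hiso hSW hSw hSu hUC
  have hUk : ∀ s : k, U.eval (algebraMap k Ω s) ∈ cadj v W w := fun s =>
    eval_mem hUC (algebraMap_mem _ s)
  refine ⟨U.natDegree, cF U b, cG k U, cδ U b, fun s t => rfl, fun t => ?_, cδ_zero U b,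
    cocy_k (T := S) (V := fun s => U.eval (algebraMap k Ω s)) hk hiso
      (law_C hiso hSW hSw) hUk h.pos fun s t => h.hco hk hiso hSW hSw hU0 s t,
    h.not_cob hk hw hu hiso hSW hSw hSu hU0 hUC hn, h.dec⟩
  refine const_zero hk h.pos ?_
  have h1 := h.hco hk hiso hSW hSw hU0 0 t
  rw [zero_C hiso hSW hSw _ (hUk t), zero_add, map_zero, ← coeff_zero_eq_eval_zero, hU0, zero_add,
    sub_self, zero_sub] at h1
  simpa using h1.neg

end main

end Pool.Agent.TWLG0
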