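import Pool.Agent.Lib.TWLG0.Dec

/-!
# CT, j = 1: the cocycle and the late motions

The motions fix only `L J`, `J` large; `W` is the closure of the union of the `L J`.
* `exists_coc_late`: `exists_coc` for these motions.
-/

set_option autoImplicit false

namespace Pool.Agent.TWLG0

open Polynomial
open Pool.Agent.H15JM (RVal)
open Pool.Agent.D2 (Ctx0)
open Pool.Agent.D2P (clI mem_clI)
open Pool.Agent.TWM
open Pool.Agent.TWRZ
open Pool.Agent.TWS (IsoE)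

universe u

variable {k Ω : Type u} [Field k] [Field Ω] [Algebra k Ω] {v : RVal Ω}
  {L : ℕ → IntermediateField k Ω} {W : IntermediateField k Ω}

theorem late_fix (hL : Monotone L) (hd : W ≤ clI v (⨆ J, L J)) {y : Ω} (hy : y ∈ W) (B : ℝ) :
    ∃ J₀ : ℕ, ∀ J ≥ J₀, ∀ τ : Ω →ₐ[k] Ω, IsoE v v τ → (∀ a ∈ L J, τ a = a) →
      v.Ge B (τ y - y) := by
  obtain ⟨c, h2, h3⟩ := (mem_clI.1 (hd hy)) B
  have h2' : c ∈ ((⨆ n, L n : IntermediateField k Ω) : Set Ω) := h2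
  rw [IntermediateField.coe_iSup_of_directed hL.directed_le, Set.mem_iUnion] at h2'
  obtain ⟨J₀, h4⟩ := h2'
  refine ⟨J₀, fun J hJ Φ hΦ hfix => ?_⟩
  have h5 : v.Ge B (y - c) := h3
  have e : Φ y - y = Φ (y - c) - (y - c) := by
    rw [map_sub, hfix c (hL hJ h4)]
    ring
  rw [e]
  exact (hΦ.ge_iff.2 h5).sub h5

/-- Finitely many statements which hold for late motions. -/
theorem late_all {P : ℕ → ℕ → Prop} (n : ℕ) (h : ∀ i < n, ∃ J₀ : ℕ, ∀ J ≥ J₀, P i J) :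
    ∃ J₀ : ℕ, ∀ J ≥ J₀, ∀ i < n, P i J := by
  induction n with
  | zero => exact ⟨0, fun _ _ i hi => absurd hi (Nat.not_lt_zero i)⟩
  | succ n ih =>
    obtain ⟨J₁, h1⟩ := ih fun i hi => h i (by omega)
    obtain ⟨J₂, h2⟩ := h n (by omega)
    refine ⟨max J₁ J₂, fun J hJ i hi => ?_⟩
    rcases Nat.lt_succ_iff_lt_or_eq.1 hi with hi | rfl
    · exact h1 J ((le_max_left _ _).trans hJ) i hi
    · exact h2 J ((le_max_right _ _).trans hJ)

/-- The values of a polynomial over `W` under the late motions. -/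
theorem late_eval (hL : Monotone L) (hd : W ≤ clI v (⨆ J, L J)) (w : Ω) {P : Polynomial Ω}
    (hP : P ∈ PI W) (B : ℝ) : ∃ J₀ : ℕ, ∀ J ≥ J₀, ∀ (τ : Ω →ₐ[k] Ω) (x : Ω), IsoE v v τ →
      (∀ a ∈ L J, τ a = a) → τ w = w + x → v.Ge (-1) x →
      v.Ge B (τ (P.eval w) - P.eval (w + x)) := by
  obtain ⟨c, hc, h1⟩ : ∃ c : ℝ, 0 ≤ c ∧ v.Ge (-c) w :=
    ⟨max 0 (-(v w)), le_max_left _ _, fun _ => by
      have := le_max_right 0 (-(v w))
      linarith⟩
  obtain ⟨J₀, h2⟩ := late_all (P := fun i J => ∀ τ : Ω →ₐ[k] Ω, IsoE v v τ →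
      (∀ a ∈ L J, τ a = a) → v.Ge (B + P.natDegree * (c + 1)) (τ (P.coeff i) - P.coeff i))
    (P.natDegree + 1) fun i _ => late_fix hL hd (hP i) _
  refine ⟨J₀, fun J hJ τ x hτ hfix hw hx => ?_⟩
  have h3 : τ (P.eval w) - P.eval (w + x) = (P.map (τ : Ω →+* Ω) - P).eval (w + x) := by
    rw [eval_sub, ← hw]
    congr 1
    rw [eval_map]
    exact (eval₂_at_apply (τ : Ω →+* Ω) _).symm
  have h4 : ∀ i, v.Ge (B + P.natDegree * (c + 1)) ((P.map (τ : Ω →+* Ω) - P).coeff i) := by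
    intro i
    rw [coeff_sub, coeff_map]
    by_cases hi : i < P.natDegree + 1
    · exact h2 J hJ i hi τ hτ hfix
    · rw [coeff_eq_zero_of_natDegree_lt (by omega), map_zero, sub_zero]
      exact RVal.Ge.zero
  have h5 := eval_ge (N := P.natDegree) ((natDegree_sub_le _ _).trans
    (max_le natDegree_map_le le_rfl)) h4 (y := w + x) (ω := c + 1) (by linarith)
    ((h1.mono (by linarith)).add (hx.mono (by linarith)))
  rw [h3]
  exact h5.mono (by linarith)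

section main

variable {w u : Ω} {S : k → Ω →ₐ[k] Ω} {U : Polynomial Ω}
  {f : ℕ → Polynomial Ω} {b : ℕ → k[X]} {m : ℝ}

/-- **The displacement of a late motion.** -/
theorem Rsd.dec_late (hL : Monotone L) (hd : W ≤ clI v (⨆ J, L J)) (h : Rsd k v W w U f b m) :
    ∃ ε₀ : ℝ, 0 < ε₀ ∧ ∃ J₀ : ℕ, ∀ J ≥ J₀, ∀ ω : ℝ, 0 ≤ ω →
    ω ≤ ε₀ → ∀ (τ : Ω →ₐ[k] Ω) (x : Ω), IsoE v v τ → (∀ f ∈ L J, τ f = f) → τ w = w + x →
      v.Ge (-ω) x → ∀ j : ℕ, 1 ≤ j → Gt v (-(ω - j * ω))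
        ((U.map (τ : Ω →+* Ω) - U.comp (X + C x)).coeff j -
          aeval x (bc (cF U b) (cG k U) j)) := by
  classical
  set n := U.natDegree with hn
  obtain ⟨D, hD⟩ : ∃ D : ℕ, ∀ j ∈ Finset.range (n + 1),
      (taylor w (f j) - hasseDeriv j U - (b j).map (algebraMap k Ω)).natDegree ≤ D :=
    ⟨(Finset.range (n + 1)).sup fun j =>
      (taylor w (f j) - hasseDeriv j U - (b j).map (algebraMap k Ω)).natDegree, fun j hj =>
        Finset.le_sup (f := fun j =>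
          (taylor w (f j) - hasseDeriv j U - (b j).map (algebraMap k Ω)).natDegree) hj⟩
  obtain ⟨J₀, hJ₀⟩ := late_all (P := fun i J => ∀ (τ : Ω →ₐ[k] Ω) (x : Ω), IsoE v v τ →
      (∀ a ∈ L J, τ a = a) → τ w = w + x → v.Ge (-1) x →
      v.Ge 1 (τ ((f i).eval w) - (f i).eval (w + x))) (n + 1)
    fun i _ => late_eval hL hd w (h.fW i) 1
  refine ⟨m / (2 * (D + n + 1)), div_pos h.pos (by positivity), J₀,
    fun J hJ ω hω hωε τ x hτ hτW hτw hx j hj => ?_⟩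
  have hDn : ((D : ℝ) + n + 1) * ω ≤ m / 2 := by
    have h1 : (0 : ℝ) < D + n + 1 := by positivity
    calc ((D : ℝ) + n + 1) * ω ≤ (D + n + 1) * (m / (2 * (D + n + 1))) :=
          mul_le_mul_of_nonneg_left hωε h1.le
      _ = m / 2 := by field_simp
  have hω1 : ω ≤ 1 := by
    have h1 : (0 : ℝ) ≤ D := Nat.cast_nonneg D
    have h2 : (0 : ℝ) ≤ n := Nat.cast_nonneg n
    have := h.le
    nlinarith
  have hcomp : (U.comp (X + C x)).coeff j = (hasseDeriv j U).eval x := by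
    rw [← taylor_coeff]
    rfl
  rw [coeff_sub, coeff_map, hcomp, bc_cF]
  by_cases hjn : j ≤ n
  · rw [if_pos ⟨hj, hjn⟩]
    have e : (τ : Ω →+* Ω) (U.coeff j) - (hasseDeriv j U).eval x - aeval x (b j) =
        τ (U.coeff j - (f j).eval w) + (τ ((f j).eval w) - (f j).eval (w + x)) +
          (taylor w (f j) - hasseDeriv j U - (b j).map (algebraMap k Ω)).eval x := by
      rw [map_sub, eval_sub, eval_sub, taylor_eval, eval_map_algebraMap, add_comm w]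
      change τ (U.coeff j) - _ - _ = _
      ring
    rw [e]
    have h1 := eval_ge (hD j (Finset.mem_range.2 (by omega))) (h.res j hj hjn) hω hx
    have h2 : v.Ge (m - D * ω) (τ (U.coeff j - (f j).eval w) +
        (τ ((f j).eval w) - (f j).eval (w + x))) :=
      ((hτ.ge_iff.2 (h.near j)).add (hJ₀ J hJ j (by omega) τ x hτ hτW hτw
        (hx.mono (by linarith)))).mono (by
        have := h.le
        have : 0 ≤ (D : ℝ) * ω := by positivity
        linarith)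
    refine Gt.of_ge (h2.add h1) ?_
    have h3 : (j : ℝ) ≤ n := by exact_mod_cast hjn
    have h4 : (j : ℝ) * ω ≤ n * ω := mul_le_mul_of_nonneg_right h3 hω
    have := h.pos
    nlinarith
  · rw [if_neg (fun h' => hjn h'.2), map_zero, sub_zero,
      coeff_eq_zero_of_natDegree_lt (by omega), map_zero,
      hasseDeriv_eq_zero_of_lt_natDegree U j (by omega), eval_zero, sub_zero]
    exact Gt.zero

/-- **The cocycle, for late motions.** -/
theorem exists_coc_late [IsAlgClosed Ω] [Infinite k] (hk : Ctx0 k v) (hL : Monotone L)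
    (hd : W ≤ clI v (⨆ J, L J)) (hw : TL v W w 0)
    (hu : Lim v (cadj v W w) 0 u) (hiso : ∀ s, IsoE v v (S s))
    (hSW : ∀ s, ∀ f ∈ W, S s f = f) (hSw : ∀ s, S s w = w + algebraMap k Ω s)
    (hSu : ∀ s, S s u = u + U.eval (algebraMap k Ω s)) (hU0 : U.coeff 0 = 0)
    (hUC : ∀ j, U.coeff j ∈ cadj v W w) (hn : ∀ g ∈ cadj v W w, ¬ Lim v W 0 (u - g)) :
    ∃ (n : ℕ) (F G : Fin n → k[X]) (δ : k → k → k),
      (∀ s t, δ s t = ∑ i, (F i).eval s * (G i).eval t) ∧ (∀ t, δ 0 t = 0) ∧ (∀ s, δ s 0 = 0) ∧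
      (∀ a b c : k, δ a b + δ (a + b) c = δ b c + δ a (b + c)) ∧ ¬ Cob δ ∧
      ∃ ε₀ : ℝ, 0 < ε₀ ∧ ∃ J₀ : ℕ, ∀ J ≥ J₀, ∀ ω : ℝ, 0 ≤ ω → ω ≤ ε₀ →
        ∀ (τ : Ω →ₐ[k] Ω) (x : Ω), IsoE v v τ →
        (∀ f ∈ L J, τ f = f) → τ w = w + x → v.Ge (-ω) x → ∀ j : ℕ, 1 ≤ j →
          Gt v (-(ω - j * ω)) ((U.map (τ : Ω →+* Ω) - U.comp (X + C x)).coeff j -
            aeval x (bc F G j)) := by
  obtain ⟨f, b, m, h⟩ := exists_rsd hk hw hu hiso hSW hSw hSu hUC
  have hUk : ∀ s : k, U.eval (algebraMap k Ω s) ∈ cadj v W w := fun s =>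
    eval_mem hUC (algebraMap_mem _ s)
  refine ⟨U.natDegree, cF U b, cG k U, cδ U b, fun s t => rfl, fun t => ?_, cδ_zero U b,
    cocy_k (T := S) (V := fun s => U.eval (algebraMap k Ω s)) hk hiso
      (law_C hiso hSW hSw) hUk h.pos fun s t => h.hco hk hiso hSW hSw hU0 s t,
    h.not_cob hk hw hu hiso hSW hSw hSu hU0 hUC hn, h.dec_late hL hd⟩
  refine const_zero hk h.pos ?_
  have h1 := h.hco hk hiso hSW hSw hU0 0 t
  rw [zero_C hiso hSW hSw _ (hUk t), zero_add, map_zero, ← coeff_zero_eq_eval_zero, hU0, zero_add,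
    sub_self, zero_sub] at h1
  simpa using h1.neg

end main

end Pool.Agent.TWLG0
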