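import Pool.Agent.Lib.TWRZ.Exu
import Pool.Agent.Lib.TWLG0.Cob

/-!
# CT, j = 1: the cocycle of a floor with attained jets which is not integrable

`w` is of transcendental type over `W`, `C = cadj v W w`, `u` is a limit of `C`; `S s` are isometric
embeddings over `W`, `S s w = w + s`, `S s u = u + U (s)`, `U ∈ C[s]`.
* `near_W`: elements of `C` with small jets are near to `W`;
* `lam_ge`: the defect `U_j (w + s) - (D_j U) (s)` is of size `≤ 0`;
* `exists_coc`: its residue is a cocycle `δ`, which is not a coboundary if no `u - g`, `g ∈ C`, is a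
  limit of `W`; for a motion `τ`, `τ w = w + x`, the polynomial `(τ U) (s) - U (s + x)` is
  `δ (x, s)` up to a constant and terms which are small for the weights.
-/

set_option autoImplicit false

namespace Pool.Agent.TWLG0

open Polynomial
open Pool.Agent.H15JM (RVal)
open Pool.Agent.LU1 (VPos)
open Pool.Agent.D2 (Ctx0)
open Pool.Agent.TWM
open Pool.Agent.TWRZ
open Pool.Agent.TWS (IsoE)
open Pool.Agent.TWCT (eq_on_cadj)

universe u

variable {k Ω : Type u} [Field k] [Field Ω] [Algebra k Ω] {v : RVal Ω}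

/-- A finite family of elements of positive value has a margin. -/
theorem exists_margin {α : Type*} (S : Finset α) (f : α → Ω) (h : ∀ i ∈ S, VPos v (f i)) :
    ∃ m : ℝ, 0 < m ∧ ∀ i ∈ S, v.Ge m (f i) := by
  classical
  induction S using Finset.induction_on with
  | empty => exact ⟨1, one_pos, fun i hi => absurd hi (Finset.notMem_empty i)⟩
  | insert a S ha ih =>
    obtain ⟨m, hm, h1⟩ := ih fun i hi => h i (Finset.mem_insert_of_mem hi)
    by_cases h0 : f a = 0
    · refine ⟨m, hm, fun i hi => ?_⟩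
      rcases Finset.mem_insert.1 hi with rfl | hi
      · rw [h0]
        exact RVal.Ge.zero
      · exact h1 i hi
    · have h2 := h a (Finset.mem_insert_self a S) h0
      refine ⟨min m (v (f a)), lt_min hm h2, fun i hi => ?_⟩
      rcases Finset.mem_insert.1 hi with rfl | hi
      · exact fun _ => min_le_right _ _
      · exact (h1 i hi).mono (min_le_left _ _)

/-- Values of polynomials at integral elements. -/
theorem eval_ge {P : Polynomial Ω} {m ω : ℝ} {N : ℕ} (hN : P.natDegree ≤ N)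
    (h : ∀ i, v.Ge m (P.coeff i)) {y : Ω} (hω : 0 ≤ ω) (hy : v.Ge (-ω) y) :
    v.Ge (m - N * ω) (P.eval y) := by
  rw [eval_eq_sum_range]
  refine RVal.Ge.sum _ _ fun i hi => ?_
  refine ((h i).mul (ge_pow hy i)).mono ?_
  have h1 : (i : ℝ) ≤ N := by
    have := Finset.mem_range.1 hi
    exact_mod_cast (by omega : i ≤ N)
  nlinarith

/-- The value of a translate. -/
theorem map_eval {W : IntermediateField k Ω} {w x : Ω} {τ : Ω →ₐ[k] Ω} (hτW : ∀ f ∈ W, τ f = f)
    (hτw : τ w = w + x) {P : Polynomial Ω} (hP : P ∈ PI W) : τ (P.eval w) = P.eval (w + x) := by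
  rw [eval_eq_sum_range, eval_eq_sum_range, map_sum]
  refine Finset.sum_congr rfl fun i _ => ?_
  rw [map_mul, map_pow, hτW _ (hP i), hτw]

/-- Elements of `C` with small jets are near to `W`. -/
theorem near_W [IsAlgClosed Ω] [Infinite k] (hk : Ctx0 k v) {W : IntermediateField k Ω} {w : Ω} (hw : TL v W w 0)
    {S : k → Ω →ₐ[k] Ω} (hiso : ∀ s, IsoE v v (S s)) (hSW : ∀ s, ∀ f ∈ W, S s f = f)
    (hSw : ∀ s, S s w = w + algebraMap k Ω s) {θ : Ω} (hθ : θ ∈ cadj v W w) {ε : ℝ} (hε : 0 < ε)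
    (h : ∀ s, v.Ge (-ε) (S s θ - θ)) : ∃ a ∈ W, v.Ge (-(2 * ε)) (θ - a) := by
  obtain ⟨P, hP, hPθ⟩ := hw.dense hθ 0
  have h1 : ∀ s, S s (P.eval w) = P.eval (w + algebraMap k Ω s) := fun s =>
    map_eval (hSW s) (hSw s) hP
  have h2 : ∀ s, v.Ge (-ε) (P.eval (w + algebraMap k Ω s) - P.eval w) := by
    intro s
    have h3 : v.Ge 0 (S s (θ - P.eval w)) := (hiso s).ge_iff.2 hPθ
    have e : P.eval (w + algebraMap k Ω s) - P.eval w =
        (S s θ - θ) - S s (θ - P.eval w) + (θ - P.eval w) := by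
      rw [map_sub, h1]
      ring
    rw [e]
    exact ((h s).sub (h3.mono (by linarith))).add (hPθ.mono (by linarith))
  have h3 : ∀ l : ℕ, v.Ge (-ε) ((taylor w P - C (P.eval w)).coeff l) := fun l =>
    coeff_ge hk (fun t => by
      rw [eval_sub, eval_C, taylor_eval, add_comm]
      exact h2 t) l
  set n := (taylor w P - C (P.eval w)).natDegree with hn
  obtain ⟨ψ, hψ, hwψ⟩ := hw.lim (ε / (n + 1)) (by positivity)
  refine ⟨P.eval ψ, eval_mem hP hψ, ?_⟩
  have h6 : v.Ge (-(ε / (n + 1))) (ψ - w) := by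
    rw [← neg_sub, ← zero_sub (ε / ((n : ℝ) + 1))]
    exact hwψ.neg
  have h7 := eval_ge hn.ge h3 (by positivity) h6
  rw [eval_sub, eval_C, taylor_eval, sub_add_cancel] at h7
  have e : θ - P.eval ψ = (θ - P.eval w) - (P.eval ψ - P.eval w) := by ring
  rw [e]
  refine (hPθ.mono (by linarith)).sub (h7.mono ?_)
  have h8 : (n : ℝ) * (ε / (n + 1)) ≤ ε := by
    rw [mul_div_assoc', div_le_iff₀ (by positivity)]
    nlinarith
  linarith

/-- The law on `C`. -/
theorem law_C {W : IntermediateField k Ω} {w : Ω} {S : k → Ω →ₐ[k] Ω}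
    (hiso : ∀ s, IsoE v v (S s)) (hSW : ∀ s, ∀ f ∈ W, S s f = f)
    (hSw : ∀ s, S s w = w + algebraMap k Ω s) (s t : k) : ∀ f ∈ cadj v W w,
      S s (S t f) = S (s + t) f := fun f hf =>
  eq_on_cadj (Φ := (S s).comp (S t)) (isoE_comp (hiso s) (hiso t)) (hiso (s + t)) (A := W) (z := w)
    (fun a ha => by
      rw [AlgHom.comp_apply, hSW t a ha, hSW (s + t) a ha, hSW s a ha]) (by
    rw [AlgHom.comp_apply, hSw, map_add, hSw, AlgHom.commutes, hSw, map_add]
    ring) f hf

theorem zero_C {W : IntermediateField k Ω} {w : Ω} {S : k → Ω →ₐ[k] Ω}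
    (hiso : ∀ s, IsoE v v (S s)) (hSW : ∀ s, ∀ f ∈ W, S s f = f)
    (hSw : ∀ s, S s w = w + algebraMap k Ω s) : ∀ f ∈ cadj v W w, S 0 f = f := fun f hf =>
  eq_on_cadj (Ψ := AlgHom.id k Ω) (hiso 0) isoE_id (A := W) (z := w)
    (fun a ha => by rw [hSW 0 a ha]; rfl) (by
    rw [hSw, map_zero, add_zero]
    rfl) f hf

/-- The displacement of the elements of `C` near to `u`. -/
theorem near_jet {C₀ : IntermediateField k Ω} {u : Ω} (hu : Lim v C₀ 0 u) {S : k → Ω →ₐ[k] Ω}
    (hiso : ∀ s, IsoE v v (S s)) {U : Polynomial Ω}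
    (hSu : ∀ s, S s u = u + U.eval (algebraMap k Ω s)) {ε : ℝ} (hε : 0 < ε) :
    ∃ θ ∈ C₀, v.Ge (-ε) (u - θ) ∧ ∀ s, v.Ge (-ε) (S s θ - θ - U.eval (algebraMap k Ω s)) := by
  obtain ⟨θ, hθ, h1⟩ := hu ε hε
  rw [zero_sub] at h1
  refine ⟨θ, hθ, h1, fun s => ?_⟩
  have h2 : v.Ge (-ε) (S s (u - θ)) := (hiso s).ge_iff.2 h1
  have e : S s θ - θ - U.eval (algebraMap k Ω s) = (u - θ) - S s (u - θ) := by
    rw [map_sub, hSu]
    ring
  rw [e]
  exact h1.sub h2

/-- The defect of the law, at points. -/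
theorem def_ge {W : IntermediateField k Ω} {w u : Ω}
    (hu : Lim v (cadj v W w) 0 u) {S : k → Ω →ₐ[k] Ω} (hiso : ∀ s, IsoE v v (S s))
    (hSW : ∀ s, ∀ f ∈ W, S s f = f) (hSw : ∀ s, S s w = w + algebraMap k Ω s) {U : Polynomial Ω}
    (hSu : ∀ s, S s u = u + U.eval (algebraMap k Ω s)) (s t : k) :
    v.Ge 0 (U.eval (algebraMap k Ω s) + S s (U.eval (algebraMap k Ω t)) -
      U.eval (algebraMap k Ω (s + t))) := by
  intro h0
  by_contra hlt
  push Not at hlt
  set a := U.eval (algebraMap k Ω s) + S s (U.eval (algebraMap k Ω t)) -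
      U.eval (algebraMap k Ω (s + t)) with ha
  obtain ⟨θ, hθ, -, h1⟩ := near_jet hu hiso hSu (ε := -(v a) / 2) (by linarith)
  have h2 : v.Ge (-(-(v a) / 2)) (S s (S t θ - θ - U.eval (algebraMap k Ω t))) :=
    (hiso s).ge_iff.2 (h1 t)
  have e : a = (S (s + t) θ - θ - U.eval (algebraMap k Ω (s + t))) -
      (S s θ - θ - U.eval (algebraMap k Ω s)) -
      S s (S t θ - θ - U.eval (algebraMap k Ω t)) := by
    rw [ha, map_sub, map_sub, law_C hiso hSW hSw s t θ hθ]
    ring
  have h3 := ((h1 (s + t)).sub (h1 s)).sub h2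
  rw [← e] at h3
  have h4 := h3 h0
  linarith

/-- The defect of the law, coefficient by coefficient. -/
theorem lam_ge [Infinite k] (hk : Ctx0 k v) {W : IntermediateField k Ω} {w u : Ω}
    (hu : Lim v (cadj v W w) 0 u) {S : k → Ω →ₐ[k] Ω} (hiso : ∀ s, IsoE v v (S s))
    (hSW : ∀ s, ∀ f ∈ W, S s f = f) (hSw : ∀ s, S s w = w + algebraMap k Ω s) {U : Polynomial Ω}
    (hSu : ∀ s, S s u = u + U.eval (algebraMap k Ω s)) (s : k) {j : ℕ} (hj : 1 ≤ j) :
    v.Ge 0 (S s (U.coeff j) - (hasseDeriv j U).eval (algebraMap k Ω s)) := by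
  have h1 := coeff_ge hk (P := C (U.eval (algebraMap k Ω s)) + U.map (S s : Ω →+* Ω) -
    taylor (algebraMap k Ω s) U) (b := 0) (fun t => by
      have h2 := def_ge hu hiso hSW hSw hSu s t
      have e : (U.map (S s : Ω →+* Ω)).eval (algebraMap k Ω t) =
          S s (U.eval (algebraMap k Ω t)) := by
        have e1 : algebraMap k Ω t = (S s : Ω →+* Ω) (algebraMap k Ω t) :=
          (AlgHom.commutes (S s) t).symm
        rw [eval_map]
        conv_lhs => rw [e1]
        exact eval₂_at_apply (S s : Ω →+* Ω) _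
      rw [eval_sub, eval_add, eval_C, e, taylor_eval, ← map_add, add_comm t s]
      exact h2) j
  rw [coeff_sub, coeff_add, coeff_C_of_ne_zero (by omega), zero_add, coeff_map, taylor_coeff] at h1
  exact h1

end Pool.Agent.TWLG0
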