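import Pool.Agent.Lib.TWLG0.Cob

/-!
# CT, j = 1: residual positions

`δ` is a cocycle on `k` which is not a coboundary, `Γ` a set of positions `(x, y) ∈ k²` such that no
additive polynomial vanishes at all `x`. A polynomial `N (s, c)` which is invariant under the left
translations by `Γ` is constant.
* `nat_pow`: the degree of an additive polynomial is a power of `p`;
* `cob_of_comp`: if `A ∘ δ` is a coboundary, `A ≠ 0` additive, so is `δ`;
* `res_const`.
-/

set_option autoImplicit false

namespace Pool.Agent.TWLG0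

open Polynomial

universe u

variable {k : Type u} [Field k]

/-- An additive polynomial. -/
def Adv (A : k[X]) : Prop := ∀ a b : k, A.eval (a + b) = A.eval a + A.eval b

theorem Adv.zero {A : k[X]} (h : Adv A) : A.eval 0 = 0 := by
  have := h 0 0
  rw [add_zero] at this
  linear_combination -this

theorem Adv.neg {A : k[X]} (h : Adv A) (a : k) : A.eval (-a) = -A.eval a := by
  have h1 := h a (-a)
  rw [add_neg_cancel, h.zero] at h1
  linear_combination -h1

theorem Adv.sub {A : k[X]} (h : Adv A) (a b : k) : A.eval (a - b) = A.eval a - A.eval b := by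
  rw [sub_eq_add_neg, h, h.neg, ← sub_eq_add_neg]

/-- The degree of an additive polynomial is a power of `p`. -/
theorem nat_pow (p : ℕ) [hp : Fact p.Prime] [CharP k p] [Infinite k] {A : k[X]} (h : Adv A)
    (hA : A ≠ 0) : ∃ m : ℕ, A.natDegree = p ^ m := by
  have h1 : ∀ j : ℕ, 1 ≤ j → hasseDeriv j A = C (A.coeff j) := by
    intro j hj
    refine Polynomial.funext fun b => ?_
    have h2 : taylor b A = A + C (A.eval b) := by
      refine Polynomial.funext fun a => ?_
      rw [taylor_eval, h, eval_add, eval_C]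
    rw [eval_C, ← taylor_coeff, h2, coeff_add, coeff_C_of_ne_zero (by omega), add_zero]
  have h2 : ∀ i j : ℕ, 1 ≤ i → 1 ≤ j → (((i + j).choose j : ℕ) : k) * A.coeff (i + j) = 0 := by
    intro i j hi hj
    rw [← hasseDeriv_coeff, h1 j hj, coeff_C_of_ne_zero (by omega)]
  have hM : A.natDegree ≠ 0 := by
    intro h3
    apply hA
    rw [Polynomial.eq_C_of_natDegree_eq_zero h3, coeff_zero_eq_eval_zero, h.zero, C_0]
  have hl : A.coeff A.natDegree ≠ 0 := by
    rw [coeff_natDegree]
    exact leadingCoeff_ne_zero.2 hA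
  obtain ⟨e, n, hn, hMe⟩ := Nat.exists_eq_pow_mul_and_not_dvd hM p hp.out.ne_one
  refine ⟨e, ?_⟩
  have hn0 : n ≠ 0 := by
    rintro rfl
    exact hn (dvd_zero p)
  have hpe : 1 ≤ p ^ e := Nat.one_le_pow _ _ hp.out.pos
  by_cases hn1 : n = 1
  · rw [hMe, hn1, mul_one]
  · exfalso
    have hlt : p ^ e < A.natDegree := by
      rw [hMe]
      have : 2 ≤ n := by omega
      nlinarith
    have h3 := h2 (A.natDegree - p ^ e) (p ^ e) (by omega) hpe
    rw [Nat.sub_add_cancel hlt.le] at h3
    have h4 := (mul_eq_zero.1 h3).resolve_right hl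
    rw [hMe, TWLG76.choose_cast_one (p := p)] at h4
    exact hn ((CharP.cast_eq_zero_iff k p n).1 h4)

/-- The functions of two variables with a homogeneous decomposition of degree `≤ N`. -/
def Dg (N : ℕ) (δ : k → k → k) : Prop :=
  ∃ P : k → k → k[X], (∀ a b z, (P a b).eval z = δ (a * z) (b * z)) ∧
    ∀ a b, (P a b).natDegree ≤ N

theorem dg_of {ι : Type} [Fintype ι] {δ : k → k → k} {F G : ι → k[X]}
    (hFG : ∀ s t, δ s t = ∑ i, (F i).eval s * (G i).eval t) : ∃ N, Dg N δ := by
  classical
  refine ⟨∑ i, ((F i).natDegree + (G i).natDegree),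
    fun a b => ∑ i, (F i).comp (C a * X) * (G i).comp (C b * X), fun a b z => ?_, fun a b => ?_⟩
  · rw [eval_finsetSum, hFG]
    refine Finset.sum_congr rfl fun i _ => ?_
    rw [eval_mul, eval_comp, eval_comp, eval_mul, eval_mul, eval_C, eval_C, eval_X]
  · refine natDegree_sum_le_of_forall_le _ _ fun i _ => ?_
    have h1 : ∀ (P : k[X]) (c : k), (P.comp (C c * X)).natDegree ≤ P.natDegree := by
      intro P c
      refine natDegree_comp_le.trans ?_
      have : (C c * X : k[X]).natDegree ≤ 1 :=
        (natDegree_C_mul_le c X).trans natDegree_X_le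
      calc P.natDegree * (C c * X : k[X]).natDegree ≤ P.natDegree * 1 :=
            Nat.mul_le_mul_left _ this
        _ = P.natDegree := mul_one _
    refine natDegree_mul_le.trans ((add_le_add (h1 _ _) (h1 _ _)).trans ?_)
    exact Finset.single_le_sum (f := fun i => (F i).natDegree + (G i).natDegree)
      (fun _ _ => Nat.zero_le _) (Finset.mem_univ i)

/-- The top coefficient of a composition. -/
theorem coeff_comp_top (A P : k[X]) {n : ℕ} (hn : 1 ≤ n) (hA : A.natDegree ≠ 0)
    (hP : P.natDegree ≤ n) : (A.comp P).coeff (n * A.natDegree) =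
      A.leadingCoeff * P.coeff n ^ A.natDegree := by
  rcases hP.lt_or_eq with h | h
  · rw [coeff_eq_zero_of_natDegree_lt h, zero_pow hA, mul_zero]
    refine coeff_eq_zero_of_natDegree_lt (natDegree_comp_le.trans_lt ?_)
    rw [mul_comm n]
    exact Nat.mul_lt_mul_of_pos_left h (Nat.pos_of_ne_zero hA)
  · have h1 := coeff_comp_degree_mul_degree (p := A) (q := P) (by omega)
    rw [h, mul_comm] at h1
    rw [h1]
    congr 2
    rw [← h]
    rfl

/-- **If `A ∘ δ` is a coboundary, so is `δ`.** -/
theorem cob_of_comp (p : ℕ) [hp : Fact p.Prime] [CharP k p] [PerfectRing k p] [Infinite k]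
    {A : k[X]} (h : Adv A) (hA : A ≠ 0) (N : ℕ) : ∀ δ : k → k → k, Dg N δ → δ 0 0 = 0 →
      (∃ R : k[X], ∀ s t, A.eval (δ s t) = R.eval (s + t) - R.eval s - R.eval t) → Cob δ := by
  obtain ⟨m, hm⟩ := nat_pow p h hA
  have hm0 : A.natDegree ≠ 0 := by
    rw [hm]
    exact (pow_pos hp.out.pos m).ne'
  have : ExpChar k p := ExpChar.prime hp.out
  induction N with
  | zero =>
    rintro δ ⟨P, hP1, hP2⟩ h0 -
    refine ⟨0, fun s t => ?_⟩
    have h1 := eq_C_of_natDegree_le_zero (hP2 s t)
    have h2 := hP1 s t 1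
    have h3 := hP1 s t 0
    rw [h1, eval_C] at h2 h3
    rw [mul_one, mul_one] at h2
    rw [mul_zero, mul_zero, h0] at h3
    rw [← h2, h3, eval_zero, eval_zero, eval_zero, sub_zero, sub_zero]
  | succ N ih =>
    rintro δ ⟨P, hP1, hP2⟩ h0 ⟨R, hR⟩
    have hl : A.leadingCoeff ≠ 0 := leadingCoeff_ne_zero.2 hA
    obtain ⟨β, hβ⟩ : ∃ β : k, β ^ p ^ m = R.coeff ((N + 1) * p ^ m) / A.leadingCoeff := by
      obtain ⟨β, hβ⟩ := (bijective_iterateFrobenius (R := k) (p := p) (n := m)).2
        (R.coeff ((N + 1) * p ^ m) / A.leadingCoeff)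
      exact ⟨β, by rw [← hβ, iterateFrobenius_def]⟩
    -- the top coefficient
    have hscale : ∀ a : k, (R.comp (C a * X)).coeff ((N + 1) * p ^ m) =
        R.coeff ((N + 1) * p ^ m) * a ^ ((N + 1) * p ^ m) := by
      intro a
      rw [comp_C_mul_X_coeff]
    have hpoly : ∀ a b : k, A.comp (P a b) =
        R.comp (C (a + b) * X) - R.comp (C a * X) - R.comp (C b * X) := by
      intro a b
      refine Polynomial.funext fun z => ?_
      rw [eval_comp, hP1, hR, eval_sub, eval_sub, eval_comp, eval_comp, eval_comp, eval_mul,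
        eval_mul, eval_mul, eval_C, eval_C, eval_C, eval_X, add_mul]
    have htop : ∀ a b : k, (P a b).coeff (N + 1) =
        β * ((a + b) ^ (N + 1) - a ^ (N + 1) - b ^ (N + 1)) := by
      intro a b
      have h1 := coeff_comp_top A (P a b) (n := N + 1) (by omega) hm0 (hP2 a b)
      rw [hm, hpoly, coeff_sub, coeff_sub, hscale, hscale, hscale] at h1
      have h2 : (P a b).coeff (N + 1) ^ p ^ m =
          (β * ((a + b) ^ (N + 1) - a ^ (N + 1) - b ^ (N + 1))) ^ p ^ m := by
        rw [mul_pow, hβ, sub_pow_expChar_pow, sub_pow_expChar_pow, ← pow_mul, ← pow_mul, ← pow_mul]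
        field_simp
        linear_combination -h1
      exact iterateFrobenius_inj k p m (by rwa [iterateFrobenius_def, iterateFrobenius_def])
    set ρ : k[X] := C β * X ^ (N + 1) with hρ
    have hρe : ∀ a, ρ.eval a = β * a ^ (N + 1) := by
      intro a
      rw [hρ, eval_mul, eval_C, eval_pow, eval_X]
    have hc := ih (fun s t => δ s t - (ρ.eval (s + t) - ρ.eval s - ρ.eval t))
      ⟨fun a b => P a b - C ((P a b).coeff (N + 1)) * X ^ (N + 1), fun a b z => by
        show _ = δ (a * z) (b * z) -
          (ρ.eval (a * z + b * z) - ρ.eval (a * z) - ρ.eval (b * z))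
        rw [eval_sub, hP1, eval_mul, eval_C, eval_pow, eval_X, htop, hρe, hρe, hρe, ← add_mul,
          mul_pow, mul_pow, mul_pow]
        ring, fun a b => by
        rw [natDegree_le_iff_coeff_eq_zero]
        intro j hj
        rw [coeff_sub, coeff_C_mul, coeff_X_pow]
        split_ifs with h1
        · rw [h1, mul_one, sub_self]
        · rw [mul_zero, sub_zero]
          exact coeff_eq_zero_of_natDegree_lt (by have := hP2 a b; omega)⟩
      (by
        simp only [hρe]
        rw [h0, add_zero, zero_pow (by omega), mul_zero, sub_zero, sub_zero, sub_zero])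
      ⟨R - A.comp ρ, fun s t => by
        rw [h.sub, h.sub, h.sub, hR, eval_sub, eval_sub, eval_sub, eval_comp, eval_comp, eval_comp]
        ring⟩
    obtain ⟨S, hS⟩ := hc
    refine ⟨S + ρ, fun s t => ?_⟩
    have h1 := hS s t
    simp only [eval_add] at h1 ⊢
    linear_combination h1

/-! ### polynomials in one variable -/

/-- A polynomial which is invariant under `Γ₁` is constant. -/
theorem const_one [Infinite k] {Γ : Set k}
    (hQ : ∀ R : k[X], R ≠ 0 → Adv R → ∃ x ∈ Γ, R.eval x ≠ 0) (n : ℕ) : ∀ N : k[X],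
      N.natDegree ≤ n → (∀ x ∈ Γ, ∀ s, N.eval (x + s) = N.eval s) → N = C (N.eval 0) := by
  induction n with
  | zero =>
    intro N hN _
    conv_lhs => rw [eq_C_of_natDegree_le_zero hN]
    rw [coeff_zero_eq_eval_zero]
  | succ n ih =>
    intro N hN hinv
    have h1 : ∀ g s : k, N.eval (s + g) - N.eval s = N.eval g - N.eval 0 := by
      intro g s
      have h2 : (taylor g N - N).natDegree ≤ n := by
        by_cases hN0 : N.natDegree = 0
        · rw [eq_C_of_natDegree_eq_zero hN0, taylor_C, sub_self, natDegree_zero]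
          exact Nat.zero_le _
        · have hne : N ≠ 0 := fun h => hN0 (by rw [h, natDegree_zero])
          have h3 : (taylor g N - N).degree < (taylor g N).degree :=
            degree_sub_lt_left (degree_taylor N g) (by rwa [Ne, taylor_eq_zero])
              (leadingCoeff_taylor g N)
          rw [degree_taylor] at h3
          by_cases h4 : taylor g N - N = 0
          · rw [h4, natDegree_zero]
            exact Nat.zero_le _
          · have := natDegree_lt_natDegree h4 h3
            omega
      have h3 := ih _ h2 fun x hx s => by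
        rw [eval_sub, eval_sub, taylor_eval, taylor_eval, add_assoc, hinv x hx, hinv x hx]
      have h4 := congrArg (fun P : k[X] => P.eval s) h3
      simp only [eval_sub, eval_C, taylor_eval, zero_add] at h4
      exact h4
    have h2 : Adv (N - C (N.eval 0)) := by
      intro a b
      rw [eval_sub, eval_sub, eval_sub, eval_C, eval_C, eval_C]
      linear_combination h1 b a
    by_cases h3 : N - C (N.eval 0) = 0
    · exact sub_eq_zero.1 h3
    · obtain ⟨x, hx, h4⟩ := hQ _ h3 h2
      exfalso
      apply h4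
      have := hinv x hx 0
      rw [eval_sub, eval_C, ← this, add_zero, sub_self]

/-! ### polynomials in two variables -/

/-- the value at `(s, c)`; the outer variable is `c` -/
noncomputable def ev (N : k[X][X]) (s c : k) : k := (N.map (evalRingHom s)).eval c

theorem ev_taylor (N : k[X][X]) (r s c : k) : ev (taylor (C r) N) s c = ev N s (c + r) := by
  rw [ev, ev, taylor_apply, Polynomial.map_comp, eval_comp, Polynomial.map_add, map_X, map_C,
    eval_add, eval_X, eval_C, coe_evalRingHom, eval_C]

theorem ev_sub (N N' : k[X][X]) (s c : k) : ev (N - N') s c = ev N s c - ev N' s c := by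
  rw [ev, ev, ev, Polynomial.map_sub, eval_sub]

/-- **Invariants are constant.** -/
theorem ev_const (p : ℕ) [hp : Fact p.Prime] [CharP k p] [PerfectRing k p] [Infinite k]
    {ι : Type} [Fintype ι] {δ : k → k → k} {F G : ι → k[X]}
    (hFG : ∀ s t, δ s t = ∑ i, (F i).eval s * (G i).eval t)
    (hd : ∀ t, δ 0 t = 0)
    (hco : ∀ a b c : k, δ a b + δ (a + b) c = δ b c + δ a (b + c)) (hc : ¬ Cob δ)
    {Γ : Set (k × k)} (hQ : ∀ R : k[X], R ≠ 0 → Adv R → ∃ q ∈ Γ, R.eval q.1 ≠ 0) (n : ℕ) :
    ∀ N : k[X][X], N.natDegree ≤ n →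
      (∀ q ∈ Γ, ∀ s c, ev N (q.1 + s) (q.2 + c + δ q.1 s) = ev N s c) →
      ∀ s c, ev N s c = ev N 0 0 := by
  have hQ' : ∀ R : k[X], R ≠ 0 → Adv R → ∃ x ∈ Prod.fst '' Γ, R.eval x ≠ 0 := by
    intro R hR hR'
    obtain ⟨q, hq, h⟩ := hQ R hR hR'
    exact ⟨q.1, ⟨q, hq, rfl⟩, h⟩
  -- no second variable
  have hone : ∀ f : k[X], (∀ q ∈ Γ, ∀ s, f.eval (q.1 + s) = f.eval s) → ∀ s, f.eval s = f.eval 0 := by
    intro f hf s
    have h1 := const_one hQ' f.natDegree f le_rfl (by
      rintro x ⟨q, hq, rfl⟩ s
      exact hf q hq s)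
    conv_lhs => rw [h1]
    rw [eval_C]
  have hbase : ∀ N : k[X][X], N.natDegree = 0 →
      (∀ q ∈ Γ, ∀ s c, ev N (q.1 + s) (q.2 + c + δ q.1 s) = ev N s c) →
      ∀ s c, ev N s c = ev N 0 0 := by
    intro N hN hinv s c
    have h1 : ∀ s c, ev N s c = (N.coeff 0).eval s := by
      intro s c
      rw [ev, eq_C_of_natDegree_eq_zero hN, map_C, eval_C, coeff_C_zero, coe_evalRingHom]
    rw [h1, h1]
    refine hone _ (fun q hq s => ?_) s
    have h2 := hinv q hq s 0
    rwa [h1, h1] at h2
  induction n with
  | zero =>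
    intro N hN hinv
    exact hbase N (Nat.le_zero.1 hN) hinv
  | succ n ih =>
    intro N hN hinv
    by_cases hN0 : N.natDegree = 0
    · exact hbase N hN0 hinv
    have hne : N ≠ 0 := fun h => hN0 (by rw [h, natDegree_zero])
    -- translations in the second variable
    have h1 : ∀ r s c : k, ev N s (c + r) - ev N s c = ev N 0 r - ev N 0 0 := by
      intro r s c
      have h2 : (taylor (C r) N - N).natDegree ≤ n := by
        have h3 : (taylor (C r) N - N).degree < (taylor (C r) N).degree :=
          degree_sub_lt_left (degree_taylor N _) (by rwa [Ne, taylor_eq_zero])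
            (leadingCoeff_taylor (C r) N)
        rw [degree_taylor] at h3
        by_cases h4 : taylor (C r) N - N = 0
        · rw [h4, natDegree_zero]
          exact Nat.zero_le _
        · have := natDegree_lt_natDegree h4 h3
          omega
      have h3 := ih _ h2 (fun q hq s c => by
        rw [ev_sub, ev_sub, ev_taylor, ev_taylor, hinv q hq]
        have h4 := hinv q hq s (c + r)
        rw [← h4]
        congr 2
        ring) s c
      rw [ev_sub, ev_sub, ev_taylor, ev_taylor, zero_add] at h3
      exact h3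
    set A : k[X] := N.map (evalRingHom 0) - C (ev N 0 0) with hA
    have hAe : ∀ c, A.eval c = ev N 0 c - ev N 0 0 := by
      intro c
      rw [hA, eval_sub, eval_C]
      rfl
    have hAdv : Adv A := by
      intro a b
      rw [hAe, hAe, hAe]
      linear_combination h1 b 0 a
    set R : k[X] := N.coeff 0 with hR
    have hRe : ∀ s, R.eval s = ev N s 0 := by
      intro s
      rw [ev, ← coeff_zero_eq_eval_zero, coeff_map, coe_evalRingHom]
    have hN' : ∀ s c, ev N s c = R.eval s + A.eval c := by
      intro s c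
      have := h1 c s 0
      rw [zero_add] at this
      rw [hRe, hAe]
      linear_combination this
    have hinv' : ∀ q ∈ Γ, ∀ s, R.eval (q.1 + s) + A.eval q.2 + A.eval (δ q.1 s) = R.eval s := by
      intro q hq s
      have := hinv q hq s 0
      rw [hN', hN', add_zero, hAdv, hAdv.zero] at this
      linear_combination this
    -- translations in the first variable
    have hcob : ∀ s g : k, A.eval (δ s g) = R.eval s + R.eval g - R.eval 0 - R.eval (s + g) := by
      intro s g
      obtain ⟨Δ, hΔ⟩ : ∃ Δ : k[X], ∀ s, Δ.eval s = δ s g :=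
        ⟨∑ i, F i * C ((G i).eval g), fun s => by
          rw [eval_finsetSum, hFG]
          exact Finset.sum_congr rfl fun i _ => by rw [eval_mul, eval_C]⟩
      have h2 := hone (taylor g R + A.comp Δ - R) (fun q hq s => by
        rw [eval_sub, eval_sub, eval_add, eval_add, eval_comp, eval_comp, taylor_eval, taylor_eval,
          hΔ, hΔ]
        have h3 := hinv' q hq (s + g)
        have h4 := hinv' q hq s
        have h5 := congrArg (fun z => A.eval z) (hco q.1 s g)
        simp only [hAdv (δ q.1 s), hAdv (δ s g)] at h5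
        rw [← add_assoc] at h3
        linear_combination h3 - h4 + h5) s
      rw [eval_sub, eval_sub, eval_add, eval_add, eval_comp, eval_comp, taylor_eval, taylor_eval,
        hΔ, hΔ, hd, hAdv.zero, zero_add] at h2
      linear_combination h2
    have hA0 : A = 0 := by
      by_contra hA1
      obtain ⟨M, hM⟩ := dg_of hFG
      refine hc (cob_of_comp p hAdv hA1 M δ hM (hd 0) ⟨C (R.eval 0) - R, fun s t => ?_⟩)
      rw [hcob, eval_sub, eval_sub, eval_sub, eval_C, eval_C, eval_C]
      ring
    have hR' : ∀ s, R.eval s = R.eval 0 := hone R fun q hq s => by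
      have := hinv' q hq s
      rwa [hA0, eval_zero, eval_zero, add_zero, add_zero] at this
    intro s c
    rw [hN', hN', hR' s, hA0, eval_zero, eval_zero]

/-- **Invariants are constant**, in the letters `MvPolynomial`. -/
theorem res_const (p : ℕ) [hp : Fact p.Prime] [CharP k p] [PerfectRing k p] [Infinite k]
    {ι : Type} [Fintype ι] {δ : k → k → k} {F G : ι → k[X]}
    (hFG : ∀ s t, δ s t = ∑ i, (F i).eval s * (G i).eval t)
    (hd : ∀ t, δ 0 t = 0)
    (hco : ∀ a b c : k, δ a b + δ (a + b) c = δ b c + δ a (b + c)) (hc : ¬ Cob δ)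
    {Γ : Set (k × k)} (hQ : ∀ R : k[X], R ≠ 0 → Adv R → ∃ q ∈ Γ, R.eval q.1 ≠ 0)
    {N : MvPolynomial (Fin 2) k} (hN : ∀ q ∈ Γ, ∀ s c,
      MvPolynomial.eval ![q.1 + s, q.2 + c + δ q.1 s] N = MvPolynomial.eval ![s, c] N) :
    N = MvPolynomial.C (MvPolynomial.coeff 0 N) := by
  set N' : k[X][X] := MvPolynomial.aeval ![C X, X] N with hN'
  have h1 : ∀ s c, ev N' s c = MvPolynomial.eval ![s, c] N := by
    intro s c
    have h2 : ((evalRingHom c).comp ((mapRingHom (evalRingHom s)).comp
        (MvPolynomial.aeval ![C X, X] : MvPolynomial (Fin 2) k →ₐ[k] k[X][X]).toRingHom)) =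
        MvPolynomial.eval ![s, c] := by
      refine MvPolynomial.ringHom_ext (fun a => ?_) fun i => ?_
      · simp
      · fin_cases i <;> simp
    exact RingHom.congr_fun h2 N
  have h2 := ev_const p hFG hd hco hc hQ N'.natDegree N' le_rfl (fun q hq s c => by
    rw [h1, h1]
    exact hN q hq s c)
  refine MvPolynomial.funext fun z => ?_
  have h3 : z = ![z 0, z 1] := by
    ext i
    fin_cases i <;> rfl
  rw [h3, ← h1, h2, h1, MvPolynomial.eval_C]
  have h4 : (![0, 0] : Fin 2 → k) = 0 := by
    ext i
    fin_cases i <;> rfl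
  rw [h4, MvPolynomial.eval_zero, MvPolynomial.constantCoeff_eq]

/-- The same, if the first coordinates of the positions are infinitely many. -/
theorem res_const' (p : ℕ) [hp : Fact p.Prime] [CharP k p] [PerfectRing k p] [Infinite k]
    {ι : Type} [Fintype ι] {δ : k → k → k} {F G : ι → k[X]}
    (hFG : ∀ s t, δ s t = ∑ i, (F i).eval s * (G i).eval t)
    (hd : ∀ t, δ 0 t = 0)
    (hco : ∀ a b c : k, δ a b + δ (a + b) c = δ b c + δ a (b + c)) (hc : ¬ Cob δ)
    {Γ : Set (k × k)} (hΓ : (Prod.fst '' Γ).Infinite)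
    {N : MvPolynomial (Fin 2) k} (hN : ∀ q ∈ Γ, ∀ s c,
      MvPolynomial.eval ![q.1 + s, q.2 + c + δ q.1 s] N = MvPolynomial.eval ![s, c] N) :
    N = MvPolynomial.C (MvPolynomial.coeff 0 N) := by
  refine res_const p hFG hd hco hc (fun R hR _ => ?_) hN
  by_contra hcon
  push Not at hcon
  refine hΓ ((R.rootSet_finite k).subset ?_)
  rintro _ ⟨q, hq, rfl⟩
  rw [mem_rootSet]
  exact ⟨hR, by simpa using hcon q hq⟩

end Pool.Agent.TWLG0
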