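import Pool.Agent.Lib.TWLG0.Res0

/-!
# CT, j = 1: residual positions, II

Spaces of polynomials without constant term which are stable under left translations by residual
positions are `0`.
* `res_one`: one variable;
* `res_two`: two variables, law given by a cocycle which is not a coboundary.
-/

set_option autoImplicit false

namespace Pool.Agent.TWLG0

open Polynomial

universe u

variable {k : Type u} [Field k]

/-- **One variable.** -/
theorem res_one [Infinite k] {Γ : Set k} (hΓ : Γ.Infinite) (V : Submodule k k[X])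
    (h0 : ∀ N ∈ V, N.eval 0 = 0)
    (hL : ∀ N ∈ V, ∀ x ∈ Γ, ∃ N' ∈ V, ∀ s, N.eval (x + s) = N'.eval s) : V = ⊥ := by
  classical
  rw [eq_bot_iff]
  intro N hN
  rw [Submodule.mem_bot]
  induction hd : N.natDegree using Nat.strong_induction_on generalizing N with
  | _ n ih =>
    by_cases hn : n = 0
    · rw [eq_C_of_natDegree_eq_zero (hd.trans hn), coeff_zero_eq_eval_zero, h0 N hN, C_0]
    · have hne : N ≠ 0 := fun h => hn (by rw [← hd, h, natDegree_zero])
      have hinv : ∀ x ∈ Γ, ∀ s, N.eval (x + s) = N.eval s := by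
        intro x hx s
        obtain ⟨N', hN', h1⟩ := hL N hN x hx
        have h2 : N' = taylor x N := by
          refine Polynomial.funext fun s => ?_
          rw [taylor_eval, ← h1, add_comm]
        have h3 : (taylor x N - N).degree < (taylor x N).degree :=
          degree_sub_lt_left (degree_taylor N x) (by rwa [Ne, taylor_eq_zero])
            (leadingCoeff_taylor x N)
        rw [degree_taylor] at h3
        have h4 : taylor x N - N = 0 := by
          by_contra h5
          have h6 := natDegree_lt_natDegree h5 h3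
          rw [hd] at h6
          exact h5 (ih _ h6 (by rw [← h2]; exact V.sub_mem hN' hN) rfl)
        have h5 := congrArg (fun P : k[X] => P.eval s) h4
        simp only [eval_sub, taylor_eval, eval_zero] at h5
        rw [add_comm x s]
        linear_combination h5
      have hQ : ∀ R : k[X], R ≠ 0 → Adv R → ∃ x ∈ Γ, R.eval x ≠ 0 := by
        intro R hR _
        by_contra hcon
        push Not at hcon
        refine hΓ ((R.rootSet_finite k).subset fun x hx => ?_)
        rw [mem_rootSet]
        exact ⟨hR, by simpa using hcon x hx⟩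
      rw [const_one hQ N.natDegree N le_rfl hinv, h0 N hN, C_0]

/-- **One variable**, the other direction: every `N ∈ V` is the translate of some `N' ∈ V`. -/
theorem res_one_inv [Infinite k] {Γ : Set k} (hΓ : Γ.Infinite) (V : Submodule k k[X])
    (h0 : ∀ N ∈ V, N.eval 0 = 0)
    (hL : ∀ N ∈ V, ∀ x ∈ Γ, ∃ N' ∈ V, ∀ s, N'.eval (x + s) = N.eval s) : V = ⊥ := by
  classical
  rw [eq_bot_iff]
  intro N hN
  rw [Submodule.mem_bot]
  induction hd : N.natDegree using Nat.strong_induction_on generalizing N with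
  | _ n ih =>
    by_cases hn : n = 0
    · rw [eq_C_of_natDegree_eq_zero (hd.trans hn), coeff_zero_eq_eval_zero, h0 N hN, C_0]
    · have hne : N ≠ 0 := fun h => hn (by rw [← hd, h, natDegree_zero])
      have hinv : ∀ x ∈ Γ, ∀ s, N.eval (x + s) = N.eval s := by
        intro x hx s
        obtain ⟨N', hN', h1⟩ := hL N hN x hx
        have h2 : N = taylor x N' := by
          refine Polynomial.funext fun s => ?_
          rw [taylor_eval, ← h1, add_comm]
        have hN'0 : N' ≠ 0 := by
          rintro rfl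
          exact hne (by rw [h2, map_zero])
        have h3 : (taylor x N' - N').degree < (taylor x N').degree :=
          degree_sub_lt_left (degree_taylor N' x) (by rwa [Ne, taylor_eq_zero])
            (leadingCoeff_taylor x N')
        rw [← h2] at h3
        have h4 : N - N' = 0 := by
          by_contra h5
          have h6 := natDegree_lt_natDegree h5 h3
          rw [hd] at h6
          exact h5 (ih _ h6 (V.sub_mem hN hN') rfl)
        rw [← sub_eq_zero.1 h4] at h1
        exact h1 s
      have hQ : ∀ R : k[X], R ≠ 0 → Adv R → ∃ x ∈ Γ, R.eval x ≠ 0 := by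
        intro R hR _
        by_contra hcon
        push Not at hcon
        refine hΓ ((R.rootSet_finite k).subset fun x hx => ?_)
        rw [mem_rootSet]
        exact ⟨hR, by simpa using hcon x hx⟩
      rw [const_one hQ N.natDegree N le_rfl hinv, h0 N hN, C_0]

/-- two polynomials in two variables with the same values -/
theorem ev_ext [Infinite k] {N N' : k[X][X]} (h : ∀ s c, ev N s c = ev N' s c) : N = N' := by
  ext j : 1
  refine Polynomial.funext fun s => ?_
  have h1 : N.map (evalRingHom s) = N'.map (evalRingHom s) := Polynomial.funext fun c => h s c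
  have h2 := congrArg (fun P : k[X] => P.coeff j) h1
  simp only [coeff_map, coe_evalRingHom] at h2
  exact h2

/-- the left translate by `(x, y)`, `Δ s = δ x s` -/
noncomputable def lt (x y : k) (Δ : k[X]) (N : k[X][X]) : k[X][X] :=
  taylor (C y + Δ) (N.map (taylorAlgHom x : k[X] →+* k[X]))

theorem ev_lt (x y : k) (Δ : k[X]) (N : k[X][X]) (s c : k) :
    ev (lt x y Δ N) s c = ev N (x + s) (y + c + Δ.eval s) := by
  have h1 : ((evalRingHom s).comp (taylorAlgHom x : k[X] →+* k[X])) = evalRingHom (x + s) := by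
    refine Polynomial.ringHom_ext (fun a => ?_) ?_
    · simp
    · simp [add_comm]
  rw [ev, ev, lt, taylor_apply, Polynomial.map_comp, Polynomial.map_map, h1, eval_comp,
    Polynomial.map_add, map_X, map_C, eval_add, eval_X, eval_C, coe_evalRingHom, eval_add, eval_C]
  congr 1
  ring

theorem natDegree_lt' (x y : k) (Δ : k[X]) (N : k[X][X]) : (lt x y Δ N).natDegree = N.natDegree := by
  rw [lt, natDegree_taylor]
  exact natDegree_map_eq_of_injective (fun a b h => taylor_injective x h) N

theorem coeff_lt (x y : k) (Δ : k[X]) (N : k[X][X]) {n : ℕ} (hn : N.natDegree = n) :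
    (lt x y Δ N).coeff n = taylor x (N.coeff n) := by
  have h1 : (N.map (taylorAlgHom x : k[X] →+* k[X])).natDegree = n := by
    rw [natDegree_map_eq_of_injective (fun a b h => taylor_injective x h) N, hn]
  have h2 : (lt x y Δ N).coeff n = (N.map (taylorAlgHom x : k[X] →+* k[X])).coeff n := by
    conv_lhs => rw [lt, ← h1, ← natDegree_taylor _ (C y + Δ), coeff_natDegree,
      leadingCoeff_taylor, leadingCoeff, h1]
  rw [h2, coeff_map]
  rfl

/-- **Two variables**, in the form `k[X][X]`. -/
theorem res_two' (p : ℕ) [hp : Fact p.Prime] [CharP k p] [PerfectRing k p] [Infinite k]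
    {ι : Type} [Fintype ι] {δ : k → k → k} {F G : ι → k[X]}
    (hFG : ∀ s t, δ s t = ∑ i, (F i).eval s * (G i).eval t)
    (hd : ∀ t, δ 0 t = 0)
    (hco : ∀ a b c : k, δ a b + δ (a + b) c = δ b c + δ a (b + c)) (hc : ¬ Cob δ)
    {Γ : Set (k × k)} (hΓ : (Prod.fst '' Γ).Infinite) (V : Submodule k k[X][X])
    (h0 : ∀ N ∈ V, ev N 0 0 = 0)
    (hL : ∀ N ∈ V, ∀ q ∈ Γ, ∃ N' ∈ V,
      (∀ s c, ev N (q.1 + s) (q.2 + c + δ q.1 s) = ev N' s c) ∨
        ∀ s c, ev N' (q.1 + s) (q.2 + c + δ q.1 s) = ev N s c) :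
    V = ⊥ := by
  classical
  by_contra hV
  have hQ : ∀ R : k[X], R ≠ 0 → Adv R → ∃ q ∈ Γ, R.eval q.1 ≠ 0 := by
    intro R hR _
    by_contra hcon
    push Not at hcon
    refine hΓ ((R.rootSet_finite k).subset ?_)
    rintro _ ⟨q, hq, rfl⟩
    rw [mem_rootSet]
    exact ⟨hR, by simpa using hcon q hq⟩
  -- minimal degree in the second variable
  have hex : ∃ n : ℕ, ∃ N ∈ V, N ≠ 0 ∧ N.natDegree = n := by
    obtain ⟨N, hN, hN0⟩ := (Submodule.ne_bot_iff V).1 hV
    exact ⟨_, N, hN, hN0, rfl⟩
  set n := Nat.find hex with hn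
  have hex' : ∃ l : ℕ, ∃ N ∈ V, N ≠ 0 ∧ N.natDegree = n ∧ (N.coeff n).natDegree = l := by
    obtain ⟨N, hN, hN0, h⟩ := Nat.find_spec hex
    exact ⟨_, N, hN, hN0, h, rfl⟩
  obtain ⟨N, hN, hN0, hNn, hNl⟩ := Nat.find_spec hex'
  set l := Nat.find hex' with hl
  have hmin : ∀ D ∈ V, D.natDegree < n → D = 0 := by
    intro D hD h1
    by_contra h2
    exact Nat.find_min hex h1 ⟨D, hD, h2, rfl⟩
  have hmin' : ∀ D ∈ V, D.natDegree = n → (D.coeff n).natDegree < l → D = 0 := by
    intro D hD h1 h2
    by_contra h3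
    exact Nat.find_min hex' h2 ⟨D, hD, h3, h1, rfl⟩
  have hinv : ∀ q ∈ Γ, ∀ s c, ev N (q.1 + s) (q.2 + c + δ q.1 s) = ev N s c := by
    intro q hq
    obtain ⟨N', hN', h1⟩ := hL N hN q hq
    obtain ⟨Δ, hΔ⟩ : ∃ Δ : k[X], ∀ s, Δ.eval s = δ q.1 s :=
      ⟨∑ i, C ((F i).eval q.1) * G i, fun s => by
        rw [eval_finsetSum, hFG]
        exact Finset.sum_congr rfl fun i _ => by rw [eval_mul, eval_C]⟩
    -- a difference of a translate is smaller
    have hsm : ∀ M ∈ V, lt q.1 q.2 Δ M ∈ V → M ≠ 0 → M.natDegree = n → (M.coeff n).natDegree = l →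
        lt q.1 q.2 Δ M - M = 0 := by
      intro M hM hM' hM0 hMn hMl
      have hDV : lt q.1 q.2 Δ M - M ∈ V := V.sub_mem hM' hM
      have hDn : (lt q.1 q.2 Δ M - M).natDegree ≤ n := by
        refine (natDegree_sub_le _ _).trans ?_
        rw [natDegree_lt', hMn, max_self]
      rcases hDn.lt_or_eq with h3 | h3
      · exact hmin _ hDV h3
      · have h4 : (lt q.1 q.2 Δ M - M).coeff n = taylor q.1 (M.coeff n) - M.coeff n := by
          rw [coeff_sub, coeff_lt _ _ _ _ hMn]
        by_cases h5 : taylor q.1 (M.coeff n) - M.coeff n = 0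
        · by_contra h6
          have h7 : (lt q.1 q.2 Δ M - M).leadingCoeff = 0 := by
            rw [leadingCoeff, h3, h4, h5]
          exact h6 (leadingCoeff_eq_zero.1 h7)
        · refine hmin' _ hDV h3 ?_
          rw [h4, ← hMl]
          have hc0 : M.coeff n ≠ 0 := by
            rw [← hMn]
            exact fun h => hM0 (leadingCoeff_eq_zero.1 h)
          have h6 : (taylor q.1 (M.coeff n) - M.coeff n).degree < (taylor q.1 (M.coeff n)).degree :=
            degree_sub_lt_left (degree_taylor _ _) (by rwa [Ne, taylor_eq_zero])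
              (leadingCoeff_taylor _ _)
          rw [degree_taylor] at h6
          exact natDegree_lt_natDegree h5 h6
    have hD : lt q.1 q.2 Δ N = N := by
      rcases h1 with h1 | h1
      · have h2 : N' = lt q.1 q.2 Δ N := ev_ext fun s c => by rw [ev_lt, hΔ, h1]
        exact sub_eq_zero.1 (hsm N hN (by rwa [← h2]) hN0 hNn hNl)
      · have h2 : lt q.1 q.2 Δ N' = N := ev_ext fun s c => by rw [ev_lt, hΔ, h1]
        have hN'n : N'.natDegree = n := by rw [← natDegree_lt' q.1 q.2 Δ N', h2, hNn]
        have hN'0 : N' ≠ 0 := by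
          rintro rfl
          exact hN0 (by rw [← h2, lt, Polynomial.map_zero, map_zero])
        have hN'l : (N'.coeff n).natDegree = l := by
          rw [← natDegree_taylor (N'.coeff n) q.1, ← coeff_lt q.1 q.2 Δ N' hN'n, h2, hNl]
        have h3 := sub_eq_zero.1 (hsm N' hN' (by rwa [h2]) hN'0 hN'n hN'l)
        have h4 : N' = N := by rw [← h3, h2]
        rw [h4] at h2
        exact h2
    intro s c
    have h3 : ev (lt q.1 q.2 Δ N) s c = ev N s c := by rw [hD]
    rwa [ev_lt, hΔ] at h3
  have h1 := ev_const p hFG hd hco hc hQ N.natDegree N le_rfl hinv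
  refine hN0 (ev_ext fun s c => ?_)
  rw [h1, h0 N hN]
  simp [ev]

/-- **Two variables.** For every `N ∈ V` and every position, the translate of `N` is in `V`, or `N` is
the translate of an element of `V`. -/
theorem res_two (p : ℕ) [hp : Fact p.Prime] [CharP k p] [PerfectRing k p] [Infinite k]
    {ι : Type} [Fintype ι] {δ : k → k → k} {F G : ι → k[X]}
    (hFG : ∀ s t, δ s t = ∑ i, (F i).eval s * (G i).eval t)
    (hd : ∀ t, δ 0 t = 0)
    (hco : ∀ a b c : k, δ a b + δ (a + b) c = δ b c + δ a (b + c)) (hc : ¬ Cob δ)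
    {Γ : Set (k × k)} (hΓ : (Prod.fst '' Γ).Infinite)
    (V : Submodule k (MvPolynomial (Fin 2) k))
    (h0 : ∀ N ∈ V, MvPolynomial.coeff 0 N = 0)
    (hL : ∀ N ∈ V, ∀ q ∈ Γ, ∃ N' ∈ V,
      (∀ s c, MvPolynomial.eval ![q.1 + s, q.2 + c + δ q.1 s] N = MvPolynomial.eval ![s, c] N') ∨
        ∀ s c, MvPolynomial.eval ![q.1 + s, q.2 + c + δ q.1 s] N' = MvPolynomial.eval ![s, c] N) :
    V = ⊥ := by
  set φ : MvPolynomial (Fin 2) k →ₐ[k] k[X][X] := MvPolynomial.aeval ![C X, X] with hφ
  have h1 : ∀ N s c, ev (φ N) s c = MvPolynomial.eval ![s, c] N := by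
    intro N s c
    have h2 : ((evalRingHom c).comp ((mapRingHom (evalRingHom s)).comp φ.toRingHom)) =
        MvPolynomial.eval ![s, c] := by
      refine MvPolynomial.ringHom_ext (fun a => ?_) fun i => ?_
      · simp [hφ]
      · fin_cases i <;> simp [hφ]
    exact RingHom.congr_fun h2 N
  have hz : (![0, 0] : Fin 2 → k) = 0 := by
    ext i
    fin_cases i <;> rfl
  have h2 := res_two' p hFG hd hco hc hΓ (V.map φ.toLinearMap) (by
    rintro _ ⟨N, hN, rfl⟩
    change ev (φ N) 0 0 = 0
    rw [h1, hz, MvPolynomial.eval_zero, MvPolynomial.constantCoeff_eq, h0 N hN]) (by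
    rintro _ ⟨N, hN, rfl⟩ q hq
    obtain ⟨N', hN', h3⟩ := hL N hN q hq
    refine ⟨φ N', ⟨N', hN', rfl⟩, ?_⟩
    rcases h3 with h3 | h3
    · left
      intro s c
      change ev (φ N) _ _ = _
      rw [h1, h1, h3]
    · right
      intro s c
      change _ = ev (φ N) _ _
      rw [h1, h1, h3])
  rw [eq_bot_iff]
  intro N hN
  rw [Submodule.mem_bot]
  have h3 : φ N ∈ V.map φ.toLinearMap := ⟨N, hN, rfl⟩
  rw [h2, Submodule.mem_bot] at h3
  refine MvPolynomial.funext fun z => ?_
  have hz' : z = ![z 0, z 1] := by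
    ext i
    fin_cases i <;> rfl
  rw [hz', ← h1, h3, map_zero]
  simp [ev]

end Pool.Agent.TWLG0
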